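import Pool.Agent.TH806.LK.Defs

set_option autoImplicit false

/-!
LM project (helper806, MP_112ba8_nt): two-sided bounds off a set of small measure.

Goal: for every `B` and `ε > 0` there are constants such that for large `T` there is a set `E` of relative measure
`≥ 1 - ε` in every `[T, T+H]`, on which all moments of zeta with real exponents `|k| ≤ B` have the expected order, and
`log |ζ|` has a Gaussian local law up to constants. `E` is the set of the `t` such that no block of primes is large and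
`|ζ(1/2+it)| exp (-Re Σ z_i)` lies in `[e^{-K}, e^K]`. Notation of `Pool.Agent.TH806.LK.Defs`.
-/

namespace Pool.Agent.TH806.LM

open Finset Filter Topology MeasureTheory Complex MonoidAlgebra
open Pool.Agent.W184.NZ
open Pool.Agent.TH806 Pool.Agent.TH806.LK
open Pool.Agent.H306R2.SM (om cl Yf)
open Pool.Agent.H262R4.TM (Rng Ck)

noncomputable section

/-- Jensen's inequality (strip): small values of zeta times a Dirichlet polynomial are rare -/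
def P_JEN : Prop := ∃ C : ℝ, 0 < C ∧ ∀ᶠ T : ℝ in atTop, ∀ κ : ℕ, Rng T κ → ∀ M : ℂ → ℂ, Differentiable ℂ M →
  (∀ s : ℂ, 2 ≤ s.re → ‖M s - 1‖ ≤ 1 / 4) → (∀ s : ℂ, 1 / 2 ≤ s.re → ‖M s‖ ≤ T) → ∀ K : ℝ, 1 ≤ K →
    ∫ t in Set.Ioi (0:ℝ) ∩ {t | Xz t * ‖M (cl t)‖ ≤ Real.exp (-K)}, om κ (κ / T) t ≤
      C / K * (1 + ∫ t in Set.Ioi (0:ℝ), wz κ T t * ‖M (cl t)‖ ^ 2) + 1 / T

/-- the product of the truncated exponentials as a Dirichlet polynomial -/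
def MP (n Rs J : ℕ) (I : ℕ → Finset ℕ) (a : ℝ) (s : ℂ) : ℂ := ∏ i ∈ range J, NC (KK n Rs i) a (PI (I i) s)

/-- its properties for `a = -1` -/
def P_MP : Prop := ∀ n : ℕ, 1 ≤ n → ∃ η : ℝ, 0 < η ∧ ∀ Rs : ℕ, 1 ≤ Rs → ∀ᶠ T : ℝ in atTop,
  ∀ (c e : ℝ) (P₀ : ℕ) (y : ℝ) (J : ℕ) (I : ℕ → Finset ℕ), Cfg c e P₀ y J I →
    n * ((Rs:ℝ) + 1) * Real.log y ≤ η * Real.log T →
    Differentiable ℂ (MP n Rs J I (-1)) ∧ (∀ s : ℂ, 2 ≤ s.re → ‖MP n Rs J I (-1) s - 1‖ ≤ 1 / 4) ∧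
      (∀ s : ℂ, 1 / 2 ≤ s.re → ‖MP n Rs J I (-1) s‖ ≤ T) ∧
      ∀ t : ℝ, MP n Rs J I (-1) (cl t) = AZ n Rs J (-1) (zz I t)

/-- mean squares of the products of the truncated exponentials -/
def P_V1 : Prop := ∀ (n : ℕ) (c : ℝ), 1 ≤ n → 0 ≤ c → ∃ (P₀ : ℕ) (C η : ℝ), 0 < C ∧ 0 < η ∧
  ∀ Rs : ℕ, 1 ≤ Rs → ∀ᶠ T : ℝ in atTop, ∀ κ : ℕ, Rng T κ → ∀ (y : ℝ) (J : ℕ) (I : ℕ → Finset ℕ),
    Cfg c 1 P₀ y J I → n * ((Rs:ℝ) + 1) * Real.log y ≤ η * Real.log T → ∀ a : ℝ, |a| ≤ n →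
      ∫ t in Set.Ioi (0:ℝ), om κ (κ / T) t * ‖AZ n Rs J a (zz I t)‖ ^ 2 ≤ C * Real.exp (a ^ 2 * VV I J)

/-- large values of one block -/
def P_V3 : Prop := ∀ (n : ℕ) (c : ℝ), 1 ≤ n → 0 ≤ c → ∃ (P₀ : ℕ) (C η : ℝ), 0 < C ∧ 0 < η ∧
  ∀ Rs : ℕ, 1 ≤ Rs → ∀ᶠ T : ℝ in atTop, ∀ κ : ℕ, Rng T κ → ∀ (y : ℝ) (J : ℕ) (I : ℕ → Finset ℕ),
    Cfg c 1 P₀ y J I → n * ((Rs:ℝ) + 1) * Real.log y ≤ η * Real.log T → ∀ i < J,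
      ∫ t in Set.Ioi (0:ℝ), om κ (κ / T) t * (‖zz I t i‖ / RR Rs i) ^ (2 * RR Rs i) ≤
        C * Real.exp (-(RR Rs i : ℝ))

/-- the twisted second moment -/
def P_V4 : Prop := ∀ (n : ℕ) (c : ℝ), 1 ≤ n → 0 ≤ c → ∃ (P₀ : ℕ) (C η : ℝ), 0 < C ∧ 0 < η ∧
  ∀ Rs : ℕ, 1 ≤ Rs → ∀ᶠ T : ℝ in atTop, ∀ κ : ℕ, Rng T κ → ∀ (y : ℝ) (J : ℕ) (I : ℕ → Finset ℕ),
    Cfg c 1 P₀ y J I → n * ((Rs:ℝ) + 1) * Real.log y ≤ η * Real.log T → ∀ a : ℝ, |a| ≤ n →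
      ∫ t in Set.Ioi (0:ℝ), wz κ T t * ‖AZ n Rs J a (zz I t)‖ ^ 2 ≤
        C * Real.log T * Real.exp ((2 * a + a ^ 2) * VV I J)

/-- the localising factor is not small in its window -/
def P_DL : Prop := ∃ R₀ : ℕ, ∀ (n Rs J : ℕ) (z : ℕ → ℂ) (u : ℝ), 1 ≤ n → 1 ≤ Rs → R₀ ≤ Rs →
  (∀ i < J, ‖z i‖ ≤ RR Rs i) → |(∑ i ∈ range J, (z i).re) - u| ≤ 1 → 1 / 2 ≤ ‖DK n Rs J hh u z‖

/-- from windows to short intervals, both directions, measurable -/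
def P_SHM : Prop := ∀ α A : ℝ, 0 ≤ α → α < 1 → 0 ≤ A → ∃ κ : ℝ → ℕ, ∀ᶠ T : ℝ in atTop,
  (∀ x ∈ Set.Icc (T / 2) (4 * T), Rng x (κ T)) ∧
  ∀ H : ℝ, T / Real.log T ^ α ≤ H → H ≤ T →
    (∀ S : Set ℝ, MeasurableSet S → ∀ w : ℝ, 1 / Real.log T ^ A ≤ w →
      (∀ x ∈ Set.Icc (T / 2) (4 * T), w ≤ ∫ t in Set.Ioi (0:ℝ) ∩ S, om (κ T) ((κ T : ℝ) / x) t) →
      1 / 2 * (H * w) ≤ volume.real (Set.Icc T (T + H) ∩ S)) ∧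
    (∀ f : ℝ → ℝ, Measurable f → (∀ t, 0 ≤ f t) → ∀ w : ℝ, 0 ≤ w →
      (∀ x ∈ Set.Icc (T / 2) (4 * T), IntegrableOn (fun t => om (κ T) ((κ T : ℝ) / x) t * f t) (Set.Ioi 0) ∧
        ∫ t in Set.Ioi (0:ℝ), om (κ T) ((κ T : ℝ) / x) t * f t ≤ w) →
      ∫ t in Set.Icc T (T + H), f t ≤ 8 * (H * w))

end

end Pool.Agent.TH806.LM
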