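import Pool.Agent.TH806.LM.Win4

set_option autoImplicit false

/-!
LM project: from windows to short intervals and to one set for all heights.
-/

namespace Pool.Agent.TH806.LM

open Finset Filter Topology MeasureTheory Complex MonoidAlgebra
open Pool.Agent.W184.NZ
open Pool.Agent.TH806 Pool.Agent.TH806.LK
open Pool.Agent.H306R2.SM (om cl Yf)
open Pool.Agent.H262R4.TM (Rng Ck)

noncomputable section

/-- the intervals, one set for each `T` -/
def P_PC : Prop := ∀ B ε δ₀ : ℝ, 0 ≤ B → 0 < ε → 0 < δ₀ → ∃ (c C W δ : ℝ) (E : ℝ → Set ℝ), 0 < c ∧ 0 < C ∧ 0 < W ∧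
  0 < δ ∧ δ ≤ δ₀ ∧ (∀ T, MeasurableSet (E T)) ∧
  (∀ T, ∀ t ∈ E T, 0 < Xz t ∧ |Real.log (Xz t) - Sp (T ^ δ) t| ≤ W) ∧ ∀ α : ℝ, 0 ≤ α → α < 1 → ∀ᶠ T : ℝ in atTop, ∀ A ∈ Set.Icc T (2 * T), ∀ H : ℝ,
    A / Real.log A ^ α ≤ H → H ≤ A →
    volume.real (Set.Icc A (A + H) ∩ (E T)ᶜ) ≤ ε * H ∧
    (∀ V : ℝ, |V| ≤ B * Real.log (Real.log T) →
      c * (H * gg (Real.log (Real.log T)) V) ≤ volume.real (Set.Icc A (A + H) ∩ (E T ∩ Lev V W)) ∧
      volume.real (Set.Icc A (A + H) ∩ (E T ∩ Lev V W)) ≤ C * (H * gg (Real.log (Real.log T)) V)) ∧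
    ∀ k : ℝ, |k| ≤ B → IntegrableOn (fun t => Xz t ^ (2 * k)) (Set.Icc A (A + H) ∩ E T) ∧
      ∫ t in Set.Icc A (A + H) ∩ E T, Xz t ^ (2 * k) ≤ C * (H * Real.log T ^ (k ^ 2))

lemma ind_vol {a b : ℝ} {S : Set ℝ} (hS : MeasurableSet S) :
    ∫ t in Set.Icc a b, S.indicator (fun _ => (1:ℝ)) t = volume.real (Set.Icc a b ∩ S) := by
  rw [setIntegral_indicator hS]
  simp

lemma ind_om {κ : ℕ} {δ : ℝ} (hδ : 0 < δ) {S : Set ℝ} (hS : MeasurableSet S) :
    IntegrableOn (fun t => om κ δ t * S.indicator (fun _ => (1:ℝ)) t) (Set.Ioi 0) ∧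
    ∫ t in Set.Ioi (0:ℝ), om κ δ t * S.indicator (fun _ => (1:ℝ)) t = ∫ t in Set.Ioi (0:ℝ) ∩ S, om κ δ t := by
  have e : (fun t => om κ δ t * S.indicator (fun _ => (1:ℝ)) t) = S.indicator fun t => om κ δ t := by
    funext t
    by_cases h : t ∈ S <;> simp [h]
  rw [e, setIntegral_indicator hS]
  exact ⟨(om_int0 κ hδ).indicator hS, rfl⟩

lemma int_back {κ : ℕ} {δ a b : ℝ} (hδ : 0 < δ) (ha : 0 < a) {f : ℝ → ℝ}
    (h : IntegrableOn (fun t => om κ δ t * f t) (Set.Ioi 0)) : IntegrableOn f (Set.Icc a b) := by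
  have hpos : ∀ t ∈ Set.Icc a b, 0 < om κ δ t := by
    intro t ht
    have : 0 < t := lt_of_lt_of_le ha ht.1
    unfold om; positivity
  have h1 : IntegrableOn (fun t => om κ δ t * f t) (Set.Icc a b) :=
    h.mono_set fun t ht => lt_of_lt_of_le ha ht.1
  have hc : ContinuousOn (fun t => (om κ δ t)⁻¹) (Set.Icc a b) :=
    (Pool.Agent.H262R4.TM.TTW.om_cont κ _).continuousOn.inv₀ fun t ht => (hpos t ht).ne'
  have h2 := h1.mul_continuousOn hc isCompact_Icc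
  refine h2.congr_fun (fun t ht => ?_) measurableSet_Icc
  have := (hpos t ht).ne'
  simp only
  field_simp

lemma gg_low {B l V : ℝ} (hl : 1 ≤ l) (hV : |V| ≤ B * l) :
    Real.exp (-(B ^ 2 * l)) / Real.sqrt l ≤ gg l V := by
  unfold gg
  have hl0 : 0 < l := by linarith
  have hVB : V ^ 2 ≤ (B * l) ^ 2 := by rw [← sq_abs V]; exact pow_le_pow_left₀ (abs_nonneg _) hV 2
  have : V ^ 2 / l ≤ B ^ 2 * l := by
    rw [div_le_iff₀ hl0]
    calc V ^ 2 ≤ (B * l) ^ 2 := hVB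
      _ = _ := by ring
  gcongr

lemma w_ev (B c : ℝ) (hc : 0 < c) : ∀ᶠ T : ℝ in atTop, ∀ A ∈ Set.Icc T (2 * T), ∀ V : ℝ,
    |V| ≤ B * Real.log (Real.log T) → 1 / Real.log A ^ (B ^ 2 + 1) ≤ c * gg (Real.log (Real.log T)) V := by
  have h1 : ∀ᶠ x : ℝ in atTop, Real.log x ≤ c * x := by
    have := Real.isLittleO_log_id_atTop.bound hc
    filter_upwards [this, eventually_ge_atTop 1] with x hx h1
    rw [Real.norm_eq_abs, Real.norm_eq_abs, id, abs_of_nonneg (Real.log_nonneg h1),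
      abs_of_nonneg (by linarith)] at hx
    exact hx
  filter_upwards [Real.tendsto_log_atTop.eventually h1, Real.tendsto_log_atTop.eventually_ge_atTop 4,
    (Real.tendsto_log_atTop.comp Real.tendsto_log_atTop).eventually_ge_atTop 1, eventually_gt_atTop (0:ℝ)] with
    T hT hL hl hT0 A hA V hV
  simp only [Function.comp] at hl
  set L := Real.log T with hLd
  set l := Real.log L with hld
  have hL0 : 0 < L := by linarith
  have hl0 : 0 < l := by linarith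
  have hA1 : L ≤ Real.log A := Real.log_le_log hT0 hA.1
  have hA2 : L ^ (B ^ 2 + 1) ≤ Real.log A ^ (B ^ 2 + 1) := Real.rpow_le_rpow hL0.le hA1 (by positivity)
  have hp : 0 < L ^ (B ^ 2 + 1) := Real.rpow_pos_of_pos hL0 _
  have e1 : Real.exp (-(B ^ 2 * l)) = L / L ^ (B ^ 2 + 1) := by
    rw [Real.rpow_add hL0, Real.rpow_one, Real.rpow_def_of_pos hL0, Real.exp_neg]
    have : Real.log L * B ^ 2 = B ^ 2 * l := by rw [hld]; ring
    rw [this]
    field_simp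
  have hs : Real.sqrt l ≤ c * L := by
    refine le_trans ?_ hT
    rw [Real.sqrt_le_left (by linarith)]
    nlinarith
  have hs0 : 0 < Real.sqrt l := Real.sqrt_pos.mpr hl0
  calc 1 / Real.log A ^ (B ^ 2 + 1) ≤ 1 / L ^ (B ^ 2 + 1) := one_div_le_one_div_of_le hp hA2
    _ ≤ c * (Real.exp (-(B ^ 2 * l)) / Real.sqrt l) := by
        rw [e1, div_div, mul_div_assoc', div_le_div_iff₀ hp (by positivity)]
        nlinarith
    _ ≤ c * gg l V := mul_le_mul_of_nonneg_left (gg_low hl hV) hc.le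

lemma ev_A {p : ℝ → Prop} (h : ∀ᶠ x : ℝ in atTop, p x) : ∀ᶠ T : ℝ in atTop, ∀ A ∈ Set.Icc T (2 * T), p A := by
  obtain ⟨X, hX⟩ := eventually_atTop.mp h
  filter_upwards [eventually_ge_atTop X] with T hT x hx
  exact hX x (hT.trans hx.1)

theorem t_PC (hW : P_W2) (hS : P_SHM) : P_PC := by
  classical
  intro B ε δ₀ hB hε hδ₀
  obtain ⟨c, C, W, d, hc, hC, hW0, hd, hdd, hW⟩ := hW B (ε / 8) δ₀ hB (by positivity) hδ₀
  set q : ℝ → Set ℝ → Prop := fun T E => ∀ t ∈ E, 0 < Xz t ∧ |Real.log (Xz t) - Sp (T ^ d) t| ≤ W with hq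
  set p : ℝ → Set ℝ → Prop := fun T E => ∀ x ∈ Set.Icc (T / 2) (8 * T), ∀ κ : ℕ, Rng x κ →
    ∫ t in Set.Ioi (0:ℝ) ∩ Eᶜ, om κ (κ / x) t ≤ ε / 8 ∧
    (∀ V : ℝ, |V| ≤ B * Real.log (Real.log T) →
      c * gg (Real.log (Real.log T)) V ≤ ∫ t in Set.Ioi (0:ℝ) ∩ (E ∩ Lev V W), om κ (κ / x) t ∧
      ∫ t in Set.Ioi (0:ℝ) ∩ (E ∩ Lev V W), om κ (κ / x) t ≤ C * gg (Real.log (Real.log T)) V) ∧
    ∀ k : ℝ, |k| ≤ B →
      IntegrableOn (fun t => om κ (κ / x) t * E.indicator (fun t => Xz t ^ (2 * k)) t) (Set.Ioi 0) ∧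
      ∫ t in Set.Ioi (0:ℝ), om κ (κ / x) t * E.indicator (fun t => Xz t ^ (2 * k)) t ≤
        C * Real.log T ^ (k ^ 2) with hp
  have hW' : ∀ᶠ T : ℝ in atTop, ∃ E : Set ℝ, MeasurableSet E ∧ q T E ∧ p T E := hW
  have hch : ∀ T : ℝ, ∃ E : Set ℝ, MeasurableSet E ∧ q T E ∧
      ((∃ E', MeasurableSet E' ∧ q T E' ∧ p T E') → p T E) := by
    intro T
    by_cases h : ∃ E', MeasurableSet E' ∧ q T E' ∧ p T E'
    · obtain ⟨E', h1, h3, h2⟩ := h
      exact ⟨E', h1, h3, fun _ => h2⟩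
    · exact ⟨∅, MeasurableSet.empty, fun t ht => absurd ht (Set.notMem_empty t), fun h' => absurd h' h⟩
  choose E hE1 hEq hE2 using hch
  refine ⟨c / 2, 8 * C, W, d, E, by positivity, by positivity, hW0, hd, hdd, hE1, hEq, ?_⟩
  intro α hα hα1
  obtain ⟨κ, hκ⟩ := hS α (B ^ 2 + 1) hα hα1 (by positivity)
  filter_upwards [hW', ev_A hκ, w_ev B c hc, eventually_gt_atTop (0:ℝ),
    Real.tendsto_log_atTop.eventually_ge_atTop 4] with T hWT hκT hwT hT0 hL4 A hA H hH1 hH2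
  have hET := hE2 T hWT
  have mE := hE1 T
  obtain ⟨hRng, hSH⟩ := hκT A hA
  obtain ⟨hlow, hup⟩ := hSH H hH1 hH2
  have hA0 : 0 < A := lt_of_lt_of_le hT0 hA.1
  have hAx : ∀ x ∈ Set.Icc (A / 2) (4 * A), x ∈ Set.Icc (T / 2) (8 * T) := fun x hx =>
    ⟨by linarith [hx.1, hA.1], by linarith [hx.2, hA.2]⟩
  have hδ : ∀ x ∈ Set.Icc (A / 2) (4 * A), 0 < (κ A : ℝ) / x := by
    intro x hx
    have hx0 : 0 < x := by linarith [hx.1]
    have h1 : (4:ℝ) ≤ Real.log A := hL4.trans (Real.log_le_log hT0 hA.1)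
    have h2 : Real.log A - 1 ≤ Real.log x := by
      have h3 := Real.log_le_log (by positivity : 0 < A / 2) hx.1
      rw [Real.log_div hA0.ne' (by norm_num)] at h3
      linarith [Real.log_two_lt_d9]
    have := kpos (hRng x hx) (by linarith)
    positivity
  have hH0 : 0 ≤ H := by
    refine le_trans ?_ hH1
    have : 0 ≤ Real.log A := by
      have := Real.log_le_log hT0 hA.1
      linarith
    positivity
  refine ⟨?_, fun V hV => ⟨?_, ?_⟩, fun k hk => ?_⟩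
  · -- exceptional set
    have h1 := hup (((E T)ᶜ).indicator fun _ => (1:ℝ)) (measurable_const.indicator mE.compl)
      (fun t => Set.indicator_nonneg (fun _ _ => zero_le_one) t) (ε / 8) (by positivity) (fun x hx => by
        obtain ⟨i1, i2⟩ := ind_om (κ := κ A) (hδ x hx) mE.compl
        refine ⟨i1, ?_⟩
        rw [i2]
        exact (hET x (hAx x hx) _ (hRng x hx)).1)
    rw [ind_vol mE.compl] at h1
    refine h1.trans (le_of_eq ?_)
    ring
  · have h1 := hlow (E T ∩ Lev V W) (mE.inter (Lev_meas V W)) (c * gg (Real.log (Real.log T)) V)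
      (hwT A hA V hV) (fun x hx => ((hET x (hAx x hx) _ (hRng x hx)).2.1 V hV).1)
    refine le_trans (le_of_eq ?_) h1
    ring
  · have mS := mE.inter (Lev_meas V W)
    have h1 := hup ((E T ∩ Lev V W).indicator fun _ => (1:ℝ)) (measurable_const.indicator mS)
      (fun t => Set.indicator_nonneg (fun _ _ => zero_le_one) t) (C * gg (Real.log (Real.log T)) V)
      (mul_nonneg hC.le (gg_nonneg _ _)) (fun x hx => by
        obtain ⟨i1, i2⟩ := ind_om (κ := κ A) (hδ x hx) mS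
        refine ⟨i1, ?_⟩
        rw [i2]
        exact ((hET x (hAx x hx) _ (hRng x hx)).2.1 V hV).2)
    rw [ind_vol mS] at h1
    refine h1.trans (le_of_eq ?_)
    ring
  · have hLk : 0 ≤ Real.log T ^ (k ^ 2) := Real.rpow_nonneg (by linarith) _
    have hAm : A ∈ Set.Icc (A / 2) (4 * A) := ⟨by linarith, by linarith⟩
    have hint : IntegrableOn ((E T).indicator fun t => Xz t ^ (2 * k)) (Set.Icc A (A + H)) :=
      int_back (hδ A hAm) hA0 ((hET A (hAx A hAm) _ (hRng A hAm)).2.2 k hk).1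
    refine ⟨?_, ?_⟩
    · refine (hint.mono_set Set.inter_subset_left).congr_fun (fun t ht => ?_) (measurableSet_Icc.inter mE)
      exact Set.indicator_of_mem ht.2 _
    · have h1 := hup ((E T).indicator fun t => Xz t ^ (2 * k))
        ((Xz_cont.measurable.pow_const _).indicator mE)
        (fun t => Set.indicator_nonneg (fun t _ => Real.rpow_nonneg (Xz_nonneg t) _) t)
        (C * Real.log T ^ (k ^ 2)) (by positivity)
        (fun x hx => (hET x (hAx x hx) _ (hRng x hx)).2.2 k hk)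
      rw [setIntegral_indicator mE] at h1
      refine h1.trans (le_of_eq ?_)
      ring

/-- the lower bound for the moments from the local law -/
lemma mom_low {B W c H l k : ℝ} {F : Set ℝ} (hF : MeasurableSet F) (hFf : volume F ≠ ⊤) (hW : 0 < W) (hl : 1 ≤ l)
    (hbig : 2 * W + 1 ≤ Real.sqrt l) (hk : |k| ≤ B) (hcH : 0 ≤ c * H)
    (hlow : ∀ V : ℝ, |V| ≤ (B + 1) * l → c * (H * gg l V) ≤ volume.real (F ∩ Lev V W))
    (hint : IntegrableOn (fun t => Xz t ^ (2 * k)) F) :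
    c * Real.exp (-(2 * B * W + (2 * W + 1) ^ 2)) * (H * Real.exp (k ^ 2 * l)) ≤ ∫ t in F, Xz t ^ (2 * k) := by
  have hl0 : 0 < l := by linarith
  have hs0 : 0 < Real.sqrt l := Real.sqrt_pos.mpr hl0
  have hss : Real.sqrt l ^ 2 = l := Real.sq_sqrt hl0.le
  set N : ℕ := ⌊Real.sqrt l⌋₊ + 1 with hN
  have hNl : Real.sqrt l ≤ N := by
    rw [hN]; push_cast; exact (Nat.lt_floor_add_one _).le
  set V : ℕ → ℝ := fun j => k * l + j * (2 * W + 1) with hV
  set S : ℕ → Set ℝ := fun j => F ∩ Lev (V j) W with hS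
  have mS : ∀ j, MeasurableSet (S j) := fun j => hF.inter (Lev_meas _ _)
  have hdis : ∀ i j : ℕ, i < j → Disjoint (S i) (S j) := by
    intro i j hij
    rw [Set.disjoint_left]
    rintro t ⟨_, _, h1⟩ ⟨_, h2, _⟩
    have h3 := Real.exp_le_exp.mp (h2.trans h1)
    have h4 : (i:ℝ) + 1 ≤ j := by exact_mod_cast hij
    simp only [hV] at h3
    nlinarith
  have hpd : (↑(range N) : Set ℕ).Pairwise (Function.onFun Disjoint S) := by
    intro i _ j _ hij
    rcases lt_or_gt_of_ne hij with h | h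
    · exact hdis i j h
    · exact (hdis j i h).symm
  have hiS : ∀ j, IntegrableOn (fun t => Xz t ^ (2 * k)) (S j) := fun j => hint.mono_set Set.inter_subset_left
  have h1 : ∫ t in ⋃ j ∈ range N, S j, Xz t ^ (2 * k) = ∑ j ∈ range N, ∫ t in S j, Xz t ^ (2 * k) :=
    integral_biUnion_finset (range N) (fun j _ => mS j) hpd fun j _ => hiS j
  have h2 : ∫ t in ⋃ j ∈ range N, S j, Xz t ^ (2 * k) ≤ ∫ t in F, Xz t ^ (2 * k) := by
    refine setIntegral_mono_set hint (ae_of_all _ fun t => Real.rpow_nonneg (Xz_nonneg t) _) ?_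
    have hsub : ⋃ j ∈ range N, S j ⊆ F := Set.iUnion₂_subset fun j _ => Set.inter_subset_left
    exact hsub.eventuallyLE
  have h3 : ∀ j ∈ range N, c * Real.exp (-(2 * B * W + (2 * W + 1) ^ 2)) * (H * Real.exp (k ^ 2 * l)) /
      Real.sqrt l ≤ ∫ t in S j, Xz t ^ (2 * k) := by
    intro j hj
    have hj1 : (j:ℝ) ≤ Real.sqrt l := by
      have h4 : j ≤ ⌊Real.sqrt l⌋₊ := by
        have := mem_range.mp hj
        omega
      exact (Nat.cast_le.mpr h4).trans (Nat.floor_le hs0.le)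
    have hj0 : (0:ℝ) ≤ j := Nat.cast_nonneg _
    have hVj : |V j| ≤ (B + 1) * l := by
      have h5 : |V j| ≤ |k * l| + |j * (2 * W + 1)| := abs_add_le _ _
      rw [abs_mul, abs_of_pos hl0, abs_of_nonneg (by positivity : (0:ℝ) ≤ j * (2 * W + 1))] at h5
      have h6 : |k| * l ≤ B * l := mul_le_mul_of_nonneg_right hk hl0.le
      have h7 : (j:ℝ) * (2 * W + 1) ≤ Real.sqrt l * Real.sqrt l := mul_le_mul hj1 hbig (by positivity) hs0.le
      rw [Real.mul_self_sqrt hl0.le] at h7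
      linarith
    have h4 := hlow (V j) hVj
    have hfin : volume (S j) ≠ ⊤ := ne_top_of_le_ne_top hFf (measure_mono Set.inter_subset_left)
    have h5 : Real.exp (2 * k * V j - 2 * |k| * W) * volume.real (S j) ≤ ∫ t in S j, Xz t ^ (2 * k) := by
      refine setIntegral_ge_of_const_le_real (mS j) hfin (fun t ht => ?_) (hiS j)
      obtain ⟨_, r1, r2⟩ := ht
      have hX0 : 0 < Xz t := lt_of_lt_of_le (Real.exp_pos _) r1
      rw [Real.rpow_def_of_pos hX0]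
      apply Real.exp_le_exp.mpr
      have l1 : V j - W ≤ Real.log (Xz t) := by rwa [Real.le_log_iff_exp_le hX0]
      have l2 : Real.log (Xz t) ≤ V j + W := by rwa [Real.log_le_iff_le_exp hX0]
      rcases le_total 0 k with hk0 | hk0
      · rw [abs_of_nonneg hk0]; nlinarith
      · rw [abs_of_nonpos hk0]; nlinarith
    refine le_trans ?_ h5
    have h6 : Real.exp (2 * k * V j - 2 * |k| * W) * (c * (H * gg l (V j))) ≤
        Real.exp (2 * k * V j - 2 * |k| * W) * volume.real (S j) :=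
      mul_le_mul_of_nonneg_left h4 (Real.exp_pos _).le
    refine le_trans ?_ h6
    have h7 : Real.exp (-(2 * B * W + (2 * W + 1) ^ 2)) * Real.exp (k ^ 2 * l) ≤
        Real.exp (2 * k * V j - 2 * |k| * W) * Real.exp (-(V j ^ 2 / l)) := by
      rw [← Real.exp_add, ← Real.exp_add]
      apply Real.exp_le_exp.mpr
      have e1 : 2 * k * V j - V j ^ 2 / l = k ^ 2 * l - (j:ℝ) ^ 2 * (2 * W + 1) ^ 2 / l := by
        simp only [hV]
        field_simp
        ring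
      have e2 : (j:ℝ) ^ 2 * (2 * W + 1) ^ 2 / l ≤ (2 * W + 1) ^ 2 := by
        rw [div_le_iff₀ hl0]
        have : (j:ℝ) ^ 2 ≤ l := by
          rw [← hss]; exact pow_le_pow_left₀ hj0 hj1 2
        nlinarith [sq_nonneg (2 * W + 1)]
      have e3 : |k| * W ≤ B * W := mul_le_mul_of_nonneg_right hk hW.le
      linarith
    calc c * Real.exp (-(2 * B * W + (2 * W + 1) ^ 2)) * (H * Real.exp (k ^ 2 * l)) / Real.sqrt l =
        (c * H / Real.sqrt l) * (Real.exp (-(2 * B * W + (2 * W + 1) ^ 2)) * Real.exp (k ^ 2 * l)) := by ring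
      _ ≤ (c * H / Real.sqrt l) * (Real.exp (2 * k * V j - 2 * |k| * W) * Real.exp (-(V j ^ 2 / l))) :=
          mul_le_mul_of_nonneg_left h7 (by positivity)
      _ = Real.exp (2 * k * V j - 2 * |k| * W) * (c * (H * gg l (V j))) := by unfold gg; ring
  refine le_trans ?_ h2
  rw [h1]
  refine le_trans ?_ (sum_le_sum h3)
  rw [sum_const, card_range, nsmul_eq_mul]
  have h8 : 0 ≤ c * Real.exp (-(2 * B * W + (2 * W + 1) ^ 2)) * (H * Real.exp (k ^ 2 * l)) / Real.sqrt l := by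
    have : c * Real.exp (-(2 * B * W + (2 * W + 1) ^ 2)) * (H * Real.exp (k ^ 2 * l)) / Real.sqrt l =
      (c * H) * (Real.exp (-(2 * B * W + (2 * W + 1) ^ 2)) * Real.exp (k ^ 2 * l) / Real.sqrt l) := by ring
    rw [this]
    positivity
  calc c * Real.exp (-(2 * B * W + (2 * W + 1) ^ 2)) * (H * Real.exp (k ^ 2 * l)) =
      Real.sqrt l * (c * Real.exp (-(2 * B * W + (2 * W + 1) ^ 2)) * (H * Real.exp (k ^ 2 * l)) /
        Real.sqrt l) := by field_simp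
    _ ≤ N * _ := mul_le_mul_of_nonneg_right hNl h8

/-- one set for all heights -/
def glue (E : ℝ → Set ℝ) : Set ℝ := ⋃ j : ℕ, E ((2:ℝ) ^ j) ∩ Set.Ico ((2:ℝ) ^ j) ((2:ℝ) ^ (j + 1))

lemma glue_meas {E : ℝ → Set ℝ} (h : ∀ T, MeasurableSet (E T)) : MeasurableSet (glue E) :=
  MeasurableSet.iUnion fun _ => (h _).inter measurableSet_Ico

lemma glue_mem {E : ℝ → Set ℝ} {j : ℕ} {t : ℝ} (h1 : (2:ℝ) ^ j ≤ t) (h2 : t < (2:ℝ) ^ (j + 1)) :
    t ∈ glue E ↔ t ∈ E ((2:ℝ) ^ j) := by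
  unfold glue
  rw [Set.mem_iUnion]
  constructor
  · rintro ⟨i, hi, h3, h4⟩
    have a1 : i < j + 1 := (pow_lt_pow_iff_right₀ (by norm_num : (1:ℝ) < 2)).mp (h3.trans_lt h2)
    have a2 : j < i + 1 := (pow_lt_pow_iff_right₀ (by norm_num : (1:ℝ) < 2)).mp (h1.trans_lt h4)
    have : i = j := by omega
    rwa [this] at hi
  · intro h
    exact ⟨j, h, h1, h2⟩

lemma gg_cmp {l lx V B : ℝ} (hl : 1 ≤ l) (hlx : 1 ≤ lx) (h : |lx - l| ≤ 1) (hV : |V| ≤ B * l) :
    Real.exp (-(2 * B ^ 2)) / 2 * gg l V ≤ gg lx V := by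
  have h1 := cmp_low hl hlx h hV
  have h2 : (V / lx) ^ 2 * lx = V ^ 2 / lx := by
    have : lx ≠ 0 := by linarith
    field_simp
  rw [h2] at h1
  exact h1

lemma gg_cmp' {l lx V B : ℝ} (hl : 1 ≤ l) (hlx : 1 ≤ lx) (h : |lx - l| ≤ 1) (hV : |V| ≤ B * l) :
    gg l V ≤ 2 * Real.exp (2 * B ^ 2) * gg lx V := by
  have h1 := gg_cmp hl hlx h hV
  have h2 : 2 * Real.exp (2 * B ^ 2) * (Real.exp (-(2 * B ^ 2)) / 2 * gg l V) = gg l V := by
    have : Real.exp (2 * B ^ 2) * Real.exp (-(2 * B ^ 2)) = 1 := by rw [← Real.exp_add]; simp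
    calc 2 * Real.exp (2 * B ^ 2) * (Real.exp (-(2 * B ^ 2)) / 2 * gg l V) =
        (Real.exp (2 * B ^ 2) * Real.exp (-(2 * B ^ 2))) * gg l V := by ring
      _ = _ := by rw [this, one_mul]
  rw [← h2]
  exact mul_le_mul_of_nonneg_left h1 (by positivity)

lemma int_two {f : ℝ → ℝ} (hf : ∀ t, 0 ≤ f t) {F S₁ S₂ : Set ℝ} (h1 : MeasurableSet S₁) (h2 : MeasurableSet S₂)
    (hF : F ⊆ S₁ ∪ S₂) (i1 : IntegrableOn f S₁) (i2 : IntegrableOn f S₂) :
    IntegrableOn f F ∧ ∫ t in F, f t ≤ (∫ t in S₁, f t) + ∫ t in S₂, f t := by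
  have i3 := i1.union i2
  refine ⟨i3.mono_set hF, ?_⟩
  have a1 : ∫ t in F, f t ≤ ∫ t in S₁ ∪ S₂, f t :=
    setIntegral_mono_set i3 (ae_of_all _ hf) hF.eventuallyLE
  have a2 : ∫ t in S₁ ∪ S₂, f t = (∫ t in S₁, f t) + ∫ t in S₂ \ S₁, f t := by
    rw [← Set.union_sdiff_self]
    exact setIntegral_union Set.disjoint_sdiff_right (h2.diff h1) i1 (i2.mono_set Set.sdiff_subset)
  have a3 : ∫ t in S₂ \ S₁, f t ≤ ∫ t in S₂, f t :=
    setIntegral_mono_set i2 (ae_of_all _ hf) (show S₂ \ S₁ ⊆ S₂ from Set.sdiff_subset).eventuallyLE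
  linarith

lemma vol_two {F S₁ S₂ : Set ℝ} (hF : F ⊆ S₁ ∪ S₂) (f1 : volume S₁ ≠ ⊤) (f2 : volume S₂ ≠ ⊤) :
    volume.real F ≤ volume.real S₁ + volume.real S₂ := by
  refine (measureReal_mono hF ?_).trans (measureReal_union_le _ _)
  exact ne_top_of_le_ne_top (ENNReal.add_ne_top.mpr ⟨f1, f2⟩) (measure_union_le _ _)

lemma fin_Icc {a b : ℝ} {S : Set ℝ} : volume (Set.Icc a b ∩ S) ≠ ⊤ :=
  ne_top_of_le_ne_top (by rw [Real.volume_Icc]; exact ENNReal.ofReal_ne_top) (measure_mono Set.inter_subset_left)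

lemma rat_ev {α α' : ℝ} (hα : 0 ≤ α) (h : α < α') : ∀ᶠ T : ℝ in atTop, ∀ H : ℝ, T / Real.log T ^ α ≤ H →
    ∀ A ∈ Set.Icc T (2 * T), A / Real.log A ^ α' ≤ H / 2 := by
  have h1 := ((tendsto_rpow_atTop (sub_pos.mpr h)).comp Real.tendsto_log_atTop).eventually_ge_atTop 4
  filter_upwards [h1, Real.tendsto_log_atTop.eventually_ge_atTop 1, eventually_gt_atTop (0:ℝ)] with
    T h2 hL hT0 H hH A hA
  simp only [Function.comp] at h2
  have hL0 : 0 < Real.log T := by linarith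
  have hA1 : Real.log T ≤ Real.log A := Real.log_le_log hT0 hA.1
  have hp : 0 < Real.log T ^ α := Real.rpow_pos_of_pos hL0 _
  have hp' : 0 < Real.log T ^ α' := Real.rpow_pos_of_pos hL0 _
  have hA2 : Real.log T ^ α' ≤ Real.log A ^ α' := Real.rpow_le_rpow hL0.le hA1 (by linarith)
  have e1 : Real.log T ^ α' = Real.log T ^ α * Real.log T ^ (α' - α) := by
    rw [← Real.rpow_add hL0]; congr 1; ring
  rw [div_le_iff₀ hp] at hH
  have hH0 : 0 ≤ H := by
    by_contra hneg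
    push Not at hneg
    nlinarith
  calc A / Real.log A ^ α' ≤ (2 * T) / Real.log T ^ α' := by
        have := hA.2
        gcongr
    _ ≤ H / 2 := by
        rw [div_le_iff₀ hp', e1]
        have h3 : H * Real.log T ^ α * 4 ≤ H * Real.log T ^ α * Real.log T ^ (α' - α) :=
          mul_le_mul_of_nonneg_left h2 (by positivity)
        linarith

lemma nb {B l x : ℝ} (hB : 0 ≤ B) (h : l ≤ x + 1) (hx : B + 1 ≤ x) : (B + 1) * l ≤ (B + 2) * x := by
  have : (B + 1) * l ≤ (B + 1) * (x + 1) := mul_le_mul_of_nonneg_left h (by linarith)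
  linarith

lemma ev_U {p : ℝ → Prop} (h : ∀ᶠ x : ℝ in atTop, p x) : ∀ᶠ T : ℝ in atTop, ∀ U, T / 2 ≤ U → p U := by
  obtain ⟨X, hX⟩ := eventually_atTop.mp h
  filter_upwards [eventually_ge_atTop (2 * X)] with T hT x hx
  exact hX x (by linarith)

/-- the final theorem -/
def P_FIN : Prop := ∀ B ε δ₀ : ℝ, 0 ≤ B → 0 < ε → 0 < δ₀ → ∃ (E : Set ℝ) (c C W δ : ℝ), MeasurableSet E ∧
  0 < c ∧ 0 < C ∧ 0 < W ∧ 0 < δ ∧ δ ≤ δ₀ ∧
  (∀ j : ℕ, ∀ t ∈ E, (2:ℝ) ^ j ≤ t → t < (2:ℝ) ^ (j + 1) →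
    0 < Xz t ∧ |Real.log (Xz t) - Sp (((2:ℝ) ^ j) ^ δ) t| ≤ W) ∧
  ∀ α : ℝ, 0 ≤ α → α < 1 → ∀ᶠ T : ℝ in atTop, ∀ H : ℝ, T / Real.log T ^ α ≤ H → H ≤ T →
    volume.real (Set.Icc T (T + H) ∩ Eᶜ) ≤ ε * H ∧
    (∀ V : ℝ, |V| ≤ B * Real.log (Real.log T) →
      c * (H * gg (Real.log (Real.log T)) V) ≤ volume.real (Set.Icc T (T + H) ∩ (E ∩ Lev V W)) ∧
      volume.real (Set.Icc T (T + H) ∩ (E ∩ Lev V W)) ≤ C * (H * gg (Real.log (Real.log T)) V)) ∧
    ∀ k : ℝ, |k| ≤ B → IntegrableOn (fun t => Xz t ^ (2 * k)) (Set.Icc T (T + H) ∩ E) ∧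
      c * (H * Real.log T ^ (k ^ 2)) ≤ ∫ t in Set.Icc T (T + H) ∩ E, Xz t ^ (2 * k) ∧
      ∫ t in Set.Icc T (T + H) ∩ E, Xz t ^ (2 * k) ≤ C * (H * Real.log T ^ (k ^ 2))

theorem t_FIN (hP : P_PC) : P_FIN := by
  intro B ε δ₀ hB hε hδ₀
  obtain ⟨c₁, C₁, W, d, E, hc₁, hC₁, hW, hd, hdd, hEm, hEq, hP⟩ :=
    hP (B + 2) (ε / 2) δ₀ (by linarith) (by positivity) hδ₀
  set q₁ : ℝ := Real.exp (-(2 * (B + 1) ^ 2)) / 2 with hq₁
  set q₂ : ℝ := 2 * Real.exp (2 * (B + 2) ^ 2) with hq₂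
  set r : ℝ := Real.exp (-(2 * B * W + (2 * W + 1) ^ 2)) with hr
  have hq₁0 : 0 < q₁ := by positivity
  have hq₂0 : 0 < q₂ := by positivity
  have hr0 : 0 < r := by positivity
  have hr1 : r ≤ 1 := by
    rw [hr]
    apply Real.exp_le_one_iff.mpr
    have : 0 ≤ 2 * B * W + (2 * W + 1) ^ 2 := by positivity
    linarith
  set c₂ : ℝ := c₁ / 2 * q₁ with hc₂
  have hc₂0 : 0 < c₂ := by positivity
  set D : ℝ := 1 + (2:ℝ) ^ (B ^ 2) with hD
  have hD0 : 0 < D := by positivity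
  refine ⟨glue E, c₂ * r, 2 * C₁ * q₂ + C₁ * D, W, d, glue_meas hEm, by positivity, by positivity, hW, hd, hdd,
    fun j t ht h1 h2 => hEq _ t ((glue_mem h1 h2).mp ht), ?_⟩
  intro α hα hα1
  have hα' : 0 ≤ (1 + α) / 2 := by linarith
  have hα1' : (1 + α) / 2 < 1 := by linarith
  have hαα : α < (1 + α) / 2 := by linarith
  filter_upwards [ev_U (hP _ hα' hα1'), rat_ev hα hαα, logs_ev, eventually_ge_atTop (1:ℝ),
    Real.tendsto_log_atTop.eventually_ge_atTop 4,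
    (Real.tendsto_log_atTop.comp Real.tendsto_log_atTop).eventually_ge_atTop (B + 2),
    (Real.tendsto_log_atTop.comp Real.tendsto_log_atTop).eventually_ge_atTop ((2 * W + 1) ^ 2)] with
    T hPT hrat hlogs hT1 hL4 hlB hlW H hH1 hH2
  simp only [Function.comp] at hlB hlW
  set L := Real.log T with hLd
  set l := Real.log L with hld
  have hT0 : 0 < T := by linarith
  have hL0 : 0 < L := by linarith
  have hl1 : 1 ≤ l := by linarith
  have hH0 : 0 ≤ H := by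
    refine le_trans ?_ hH1
    positivity
  obtain ⟨j, hj1, hj2⟩ := exists_nat_pow_near hT1 (by norm_num : (1:ℝ) < 2)
  set U : ℝ := (2:ℝ) ^ j with hU
  have hU2 : (2:ℝ) ^ (j + 1) = 2 * U := by rw [hU, pow_succ]; ring
  have hU4 : (2:ℝ) ^ (j + 1 + 1) = 4 * U := by rw [hU, pow_succ, pow_succ]; ring
  rw [hU2] at hj2
  have hU0 : 0 < U := by positivity
  -- the two pieces
  have f1 := hPT U (by linarith)
  have f2 := hPT (2 * U) (by linarith)
  have m1 : ∀ {t : ℝ}, U ≤ t → t < 2 * U → (t ∈ glue E ↔ t ∈ E U) := fun h1 h2 =>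
    glue_mem (j := j) h1 (by rw [hU2]; exact h2)
  have m2 : ∀ {t : ℝ}, 2 * U ≤ t → t < 4 * U → (t ∈ glue E ↔ t ∈ E (2 * U)) := by
    intro t h1 h2
    have h3 : (2:ℝ) ^ (j + 1) ≤ t := by rw [hU2]; exact h1
    have h4 : t < (2:ℝ) ^ (j + 1 + 1) := by rw [hU4]; exact h2
    have := glue_mem (E := E) h3 h4
    rwa [hU2] at this
  obtain ⟨u1, u2, u3⟩ := hlogs U ⟨by linarith, by linarith⟩
  obtain ⟨v1, v2, v3⟩ := hlogs (2 * U) ⟨by linarith, by linarith⟩
  obtain ⟨u4, u5⟩ := abs_le.mp u3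
  obtain ⟨v4, v5⟩ := abs_le.mp v3
  set lU := Real.log (Real.log U) with hlU
  set lV := Real.log (Real.log (2 * U)) with hlV
  have hlU1 : B + 1 ≤ lU := by linarith
  have hlV1 : B + 1 ≤ lV := by linarith
  -- ranges
  have rT : T / Real.log T ^ ((1 + α) / 2) ≤ H / 2 := hrat H hH1 T ⟨le_rfl, by linarith⟩
  have r2U : 2 * U / Real.log (2 * U) ^ ((1 + α) / 2) ≤ H / 2 := hrat H hH1 (2 * U) ⟨by linarith, by linarith⟩
  have a1 := f1 T ⟨hj1, hj2.le⟩ H (by linarith) hH2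
  have a2 := f2 (2 * U) ⟨le_rfl, by linarith⟩ H (by linarith) (by linarith)
  -- inclusions
  have sub1 : ∀ S : Set ℝ, Set.Icc T (T + H) ∩ (glue E ∩ S) ⊆
      (Set.Icc T (T + H) ∩ (E U ∩ S)) ∪ (Set.Icc (2 * U) (2 * U + H) ∩ (E (2 * U) ∩ S)) := by
    rintro S t ⟨⟨t1, t2⟩, t3, t4⟩
    rcases lt_or_ge t (2 * U) with h | h
    · exact Or.inl ⟨⟨t1, t2⟩, (m1 (hj1.trans t1) h).mp t3, t4⟩
    · exact Or.inr ⟨⟨h, by linarith⟩, (m2 h (by linarith)).mp t3, t4⟩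
  have sub2 : Set.Icc T (T + H) ∩ (glue E)ᶜ ⊆
      (Set.Icc T (T + H) ∩ (E U)ᶜ) ∪ (Set.Icc (2 * U) (2 * U + H) ∩ (E (2 * U))ᶜ) := by
    rintro t ⟨⟨t1, t2⟩, t3⟩
    rcases lt_or_ge t (2 * U) with h | h
    · exact Or.inl ⟨⟨t1, t2⟩, fun h' => t3 ((m1 (hj1.trans t1) h).mpr h')⟩
    · exact Or.inr ⟨⟨h, by linarith⟩, fun h' => t3 ((m2 h (by linarith)).mpr h')⟩
  -- the local law
  have hup : ∀ V : ℝ, |V| ≤ (B + 1) * l →
      volume.real (Set.Icc T (T + H) ∩ (glue E ∩ Lev V W)) ≤ 2 * C₁ * q₂ * (H * gg l V) := by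
    intro V hV
    have hVU : |V| ≤ (B + 2) * lU := hV.trans (nb hB (by linarith only [u4]) hlU1)
    have hVV : |V| ≤ (B + 2) * lV := hV.trans (nb hB (by linarith only [v4]) hlV1)
    have b1 := (a1.2.1 V hVU).2
    have b2 := (a2.2.1 V hVV).2
    have c1 : gg lU V ≤ q₂ * gg l V := gg_cmp' (by linarith) hl1 (by rw [abs_sub_comm]; exact u3) hVU
    have c2 : gg lV V ≤ q₂ * gg l V := gg_cmp' (by linarith) hl1 (by rw [abs_sub_comm]; exact v3) hVV
    refine (vol_two (sub1 _) fin_Icc fin_Icc).trans ((add_le_add b1 b2).trans ?_)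
    calc C₁ * (H * gg lU V) + C₁ * (H * gg lV V) ≤ C₁ * (H * (q₂ * gg l V)) + C₁ * (H * (q₂ * gg l V)) := by gcongr
      _ = _ := by ring
  have hlow : ∀ V : ℝ, |V| ≤ (B + 1) * l →
      c₂ * (H * gg l V) ≤ volume.real (Set.Icc T (T + H) ∩ (glue E ∩ Lev V W)) := by
    intro V hV
    have hVU : |V| ≤ (B + 2) * lU := hV.trans (nb hB (by linarith only [u4]) hlU1)
    have hVV : |V| ≤ (B + 2) * lV := hV.trans (nb hB (by linarith only [v4]) hlV1)
    rcases lt_or_ge (T + H / 2) (2 * U) with h | h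
    · have b1 := ((f1 T ⟨hj1, hj2.le⟩ (H / 2) rT (by linarith)).2.1 V hVU).1
      have c1 : q₁ * gg l V ≤ gg lU V := gg_cmp hl1 (by linarith) u3 hV
      have hsub : Set.Icc T (T + H / 2) ∩ (E U ∩ Lev V W) ⊆ Set.Icc T (T + H) ∩ (glue E ∩ Lev V W) := by
        rintro t ⟨⟨t1, t2⟩, t3, t4⟩
        exact ⟨⟨t1, by linarith⟩, (m1 (hj1.trans t1) (by linarith)).mpr t3, t4⟩
      refine le_trans ?_ (b1.trans (measureReal_mono hsub fin_Icc))
      calc c₂ * (H * gg l V) = c₁ * (H / 2 * (q₁ * gg l V)) := by rw [hc₂]; ring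
        _ ≤ c₁ * (H / 2 * gg lU V) := by gcongr
    · have hA2 : T + H / 2 ≤ 2 * T := by linarith
      have b1 := ((f2 (T + H / 2) ⟨h, by linarith⟩ (H / 2)
        (hrat H hH1 (T + H / 2) ⟨by linarith, hA2⟩) (by linarith)).2.1 V hVV).1
      have c1 : q₁ * gg l V ≤ gg lV V := gg_cmp hl1 (by linarith) v3 hV
      have hsub : Set.Icc (T + H / 2) (T + H / 2 + H / 2) ∩ (E (2 * U) ∩ Lev V W) ⊆
          Set.Icc T (T + H) ∩ (glue E ∩ Lev V W) := by
        rintro t ⟨⟨t1, t2⟩, t3, t4⟩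
        exact ⟨⟨by linarith, by linarith⟩, (m2 (h.trans t1) (by linarith)).mpr t3, t4⟩
      refine le_trans ?_ (b1.trans (measureReal_mono hsub fin_Icc))
      calc c₂ * (H * gg l V) = c₁ * (H / 2 * (q₁ * gg l V)) := by rw [hc₂]; ring
        _ ≤ c₁ * (H / 2 * gg lV V) := by gcongr
  have hBl : B * l ≤ (B + 1) * l := by linarith
  refine ⟨?_, fun V hV => ⟨?_, ?_⟩, fun k hk => ?_⟩
  · refine (vol_two sub2 fin_Icc fin_Icc).trans ((add_le_add a1.1 a2.1).trans (le_of_eq ?_))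
    ring
  · refine le_trans ?_ (hlow V (hV.trans hBl))
    have : 0 ≤ H * gg l V := mul_nonneg hH0 (gg_nonneg _ _)
    have h1 : c₂ * r ≤ c₂ * 1 := mul_le_mul_of_nonneg_left hr1 hc₂0.le
    rw [mul_one] at h1
    exact mul_le_mul_of_nonneg_right h1 this
  · refine (hup V (hV.trans hBl)).trans ?_
    have : 0 ≤ H * gg l V := mul_nonneg hH0 (gg_nonneg _ _)
    refine mul_le_mul_of_nonneg_right ?_ this
    have : 0 < C₁ * D := by positivity
    linarith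
  · have hk2 : |k| ≤ B + 2 := by linarith
    obtain ⟨i1, b1⟩ := a1.2.2 k hk2
    obtain ⟨i2, b2⟩ := a2.2.2 k hk2
    have hsub : Set.Icc T (T + H) ∩ glue E ⊆
        (Set.Icc T (T + H) ∩ E U) ∪ (Set.Icc (2 * U) (2 * U + H) ∩ E (2 * U)) := by
      have := sub1 Set.univ
      simpa only [Set.inter_univ] using this
    obtain ⟨i3, b3⟩ := int_two (fun t => Real.rpow_nonneg (Xz_nonneg t) (2 * k)) (measurableSet_Icc.inter (hEm U))
      (measurableSet_Icc.inter (hEm (2 * U))) hsub i1 i2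
    refine ⟨i3, ?_, ?_⟩
    · have hs : 2 * W + 1 ≤ Real.sqrt l := by
        apply Real.le_sqrt_of_sq_le
        exact hlW
      have h1 := mom_low (B := B) (W := W) (c := c₂) (H := H) (l := l) (k := k)
        (F := Set.Icc T (T + H) ∩ glue E) (measurableSet_Icc.inter (glue_meas hEm)) fin_Icc hW hl1 hs hk
        (by positivity) (fun V hV => by
          rw [Set.inter_assoc]
          exact hlow V hV) i3
      have h2 : Real.exp (k ^ 2 * l) = L ^ (k ^ 2) := by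
        rw [Real.rpow_def_of_pos hL0, hld]; congr 1; ring
      rw [h2] at h1
      exact h1
    · refine b3.trans ((add_le_add b1 b2).trans ?_)
      have hLU : Real.log U ^ (k ^ 2) ≤ L ^ (k ^ 2) := by
        refine Real.rpow_le_rpow (by linarith) (Real.log_le_log hU0 hj1) (sq_nonneg _)
      have hLV : Real.log (2 * U) ^ (k ^ 2) ≤ 2 ^ (B ^ 2) * L ^ (k ^ 2) := by
        have e1 : Real.log (2 * U) ≤ 2 * L := by
          have := Real.log_le_log (by positivity) (show 2 * U ≤ 2 * T by linarith)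
          rw [Real.log_mul (by norm_num : (2:ℝ) ≠ 0) hT0.ne'] at this
          linarith [Real.log_two_lt_d9]
        calc Real.log (2 * U) ^ (k ^ 2) ≤ (2 * L) ^ (k ^ 2) :=
              Real.rpow_le_rpow (by linarith) e1 (sq_nonneg _)
          _ = 2 ^ (k ^ 2) * L ^ (k ^ 2) := Real.mul_rpow (by norm_num) hL0.le
          _ ≤ 2 ^ (B ^ 2) * L ^ (k ^ 2) := by
              have h3 : k ^ 2 ≤ B ^ 2 := by
                rw [← sq_abs k]; exact pow_le_pow_left₀ (abs_nonneg _) hk 2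
              have h4 : (2:ℝ) ^ (k ^ 2) ≤ 2 ^ (B ^ 2) := Real.rpow_le_rpow_of_exponent_le (by norm_num) h3
              exact mul_le_mul_of_nonneg_right h4 (Real.rpow_nonneg hL0.le _)
      have hLk : 0 ≤ L ^ (k ^ 2) := Real.rpow_nonneg hL0.le _
      calc C₁ * (H * Real.log U ^ (k ^ 2)) + C₁ * (H * Real.log (2 * U) ^ (k ^ 2)) ≤
          C₁ * (H * L ^ (k ^ 2)) + C₁ * (H * (2 ^ (B ^ 2) * L ^ (k ^ 2))) := by gcongr
        _ = C₁ * D * (H * L ^ (k ^ 2)) := by rw [hD]; ring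
        _ ≤ (2 * C₁ * q₂ + C₁ * D) * (H * L ^ (k ^ 2)) := by
            refine mul_le_mul_of_nonneg_right ?_ (mul_nonneg hH0 hLk)
            have : 0 < 2 * C₁ * q₂ := by positivity
            linarith

end

end Pool.Agent.TH806.LM
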