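import Pool.Agent.TH806.LK.Fin
import Pool.Agent.TH806.LM.Glue
import Pool.Agent.TH364.LM_JEN
import Pool.Agent.TH921.LM_MP
import Pool.Agent.TH148.LM_V
import Pool.Agent.TH986.LM_DL
import Pool.Agent.TH883.LM_SHM

set_option autoImplicit false

/-!
LM project: assembly.
-/

namespace Pool.Agent.TH806.LM

open Pool.Agent.TH806.LK

theorem a_W2 : P_W2 :=
  t_W2 t_SET2 Pool.Agent.TH126.LK_PT.t_PT a_U13.1 a_U2 a_U13.2 a_U4 a_LB
    Pool.Agent.TH364.LM_JEN.t_JEN Pool.Agent.TH921.LM_MP.t_MP Pool.Agent.TH148.LM_V.t_V1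
    Pool.Agent.TH148.LM_V.t_V3 Pool.Agent.TH148.LM_V.t_V4 Pool.Agent.TH986.LM_DL.t_DL

theorem a_FIN : P_FIN := t_FIN (t_PC a_W2 Pool.Agent.TH883.LM_SHM.t_SHM)

end Pool.Agent.TH806.LM
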