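import Pool.Agent.TH806.LM.Defs
import Pool.Agent.TH828.LK_SET

set_option autoImplicit false

/-!
LM project: the configurations, with the comparison with the sum over all primes.
-/

namespace Pool.Agent.TH806.LM

open Finset Filter Topology MeasureTheory Complex MonoidAlgebra
open Pool.Agent.W184.NZ
open Pool.Agent.TH806 Pool.Agent.TH806.LK
open Pool.Agent.TH828.LK_SET (IS IS_sub vI_IS_le uI_IS_le tail sum_uI sum_vI_lower)

noncomputable section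

/-- the real part of the sum of `p^{-1/2-it}` over the primes `p ≤ y` -/
def Sp (y t : ℝ) : ℝ := (∑ p ∈ (Finset.Icc 1 ⌊y⌋₊).filter Nat.Prime, (p : ℂ) ^ (-(1 / 2 + t * Complex.I))).re

/-- existence of configurations -/
def P_SET2 : Prop := ∃ c : ℝ, 0 ≤ c ∧ ∀ e : ℝ, 0 < e → ∃ P₁ : ℕ, ∀ P₂ : ℕ, P₁ ≤ P₂ → ∃ CV : ℝ, 0 ≤ CV ∧
  ∀ y : ℝ, 144 ≤ y → ∃ (J : ℕ) (I : ℕ → Finset ℕ), Cfg c e P₂ y J I ∧ Real.log (Real.log y) - CV ≤ VV I J ∧
    ∀ t : ℝ, |xx I J t - Sp y t| ≤ P₂ + 144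

lemma re_le_one {p : ℕ} (hp : p.Prime) (t : ℝ) : |((p : ℂ) ^ (-(1 / 2 + t * Complex.I))).re| ≤ 1 := by
  refine (Complex.abs_re_le_norm _).trans ?_
  have hp1 : (1:ℝ) ≤ p := by exact_mod_cast hp.one_lt.le
  rw [Complex.norm_natCast_cpow_of_pos hp.pos]
  have : (-(1 / 2 + t * Complex.I) : ℂ).re = -(1 / 2) := by simp
  rw [this]
  exact Real.rpow_le_one_of_one_le_of_nonpos hp1 (by norm_num)

lemma xx_IS {P : ℕ} {y : ℝ} (hy : 144 ≤ y) {J : ℕ} (hJ : bb y J < 144) (t : ℝ) :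
    |xx (IS P y) J t - Sp y t| ≤ P + 144 := by
  have hy1 : 1 ≤ y := by linarith
  have hy0 : 0 ≤ y := by linarith
  set F : ℕ → ℝ := fun p => ((p : ℂ) ^ (-(1 / 2 + t * Complex.I))).re with hF
  have e1 : xx (IS P y) J t = ∑ i ∈ range J, ∑ p ∈ II y i, (if P ≤ p then F p else 0) := by
    unfold xx zz PI IS
    refine sum_congr rfl fun i _ => ?_
    rw [Complex.re_sum, sum_filter]
  rw [sum_II hy1 (fun p => if P ≤ p then F p else 0) J, ← sum_filter] at e1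
  have e2 : Sp y t = ∑ p ∈ (Finset.Icc 1 ⌊y⌋₊).filter Nat.Prime, F p := by
    unfold Sp
    rw [Complex.re_sum]
  set A := (Finset.Icc 1 ⌊y⌋₊).filter Nat.Prime with hA
  set B := (PF y (bb y J)).filter (fun p => P ≤ p) with hB
  have hBA : B ⊆ A := by
    intro p hp
    rw [hB, mem_filter, mem_PF hy0] at hp
    rw [hA, mem_filter, mem_Icc, Nat.le_floor_iff hy0]
    exact ⟨⟨hp.1.1.one_lt.le, hp.1.2.2.2⟩, hp.1.1⟩
  rw [e1, e2, ← sum_sdiff hBA, abs_sub_comm, add_sub_cancel_right]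
  have hsub : A \ B ⊆ range (P + 144) := by
    intro p hp
    rw [Finset.mem_sdiff, hA, hB, mem_filter, mem_filter, mem_PF hy0, mem_Icc, Nat.le_floor_iff hy0] at hp
    obtain ⟨⟨⟨_, h2⟩, h3⟩, h4⟩ := hp
    rw [mem_range]
    by_contra h5
    apply h4
    have h6 : 144 ≤ p := by omega
    refine ⟨⟨h3, h6, ?_, h2⟩, by omega⟩
    have : (144:ℝ) ≤ p := by exact_mod_cast h6
    linarith
  calc |∑ p ∈ A \ B, F p| ≤ ∑ p ∈ A \ B, |F p| := abs_sum_le_sum_abs _ _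
    _ ≤ ∑ p ∈ A \ B, (1:ℝ) := by
        refine sum_le_sum fun p hp => re_le_one ?_ t
        rw [Finset.mem_sdiff, hA, mem_filter] at hp
        exact hp.1.2
    _ ≤ ∑ p ∈ range (P + 144), (1:ℝ) := sum_le_sum_of_subset_of_nonneg hsub fun _ _ _ => zero_le_one
    _ = P + 144 := by simp

theorem t_SET2 : P_SET2 := by
  obtain ⟨c, hc0, hc⟩ := ranges
  refine ⟨c, hc0, fun e he => ?_⟩
  obtain ⟨P₁, hP₁⟩ := tail e he
  refine ⟨P₁, fun P₂ hP => ⟨c + P₂, by positivity, fun y hy => ?_⟩⟩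
  have hy1 : 1 ≤ y := by linarith
  obtain ⟨J, hR, -, hJ, hv⟩ := hc y hy
  rw [abs_le] at hv
  have hV : VV (IS P₂ y) J ≤ ∑ i ∈ range J, vI (II y i) :=
    sum_le_sum fun i _ => vI_IS_le P₂ y i
  refine ⟨J, IS P₂ y, ⟨hy, hc0, ⟨?_, ?_, hR.b10, ?_, ?_⟩, ?_, ?_, ?_⟩, ?_, fun t => xx_IS hy hJ t⟩
  · intro i p hp
    exact hR.pr i p (IS_sub P₂ y i hp)
  · intro i j hij
    exact disjoint_of_subset_left (IS_sub P₂ y i)
      (disjoint_of_subset_right (IS_sub P₂ y j) (hR.dj i j hij))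
  · intro i hi
    exact (vI_IS_le P₂ y i).trans (hR.v i hi)
  · exact (sum_le_sum fun i _ => uI_IS_le P₂ y i).trans hR.U
  · rw [sum_uI P₂ hy1 J]
    apply hP₁
    intro p hp
    exact hP.trans (mem_filter.1 hp).2
  · intro i p hp
    exact (mem_filter.1 hp).2
  · linarith [hv.2]
  · have h1 := sum_vI_lower P₂ hy1 J
    have h2 : VV (IS P₂ y) J = ∑ i ∈ range J, vI (IS P₂ y i) := rfl
    rw [h2]
    linarith [hv.1]

end

end Pool.Agent.TH806.LM
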