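import Pool.Agent.TH806.LM.Defs
import Pool.Agent.TH806.LK.Win

set_option autoImplicit false

/-!
LM project: the local lower bound in the windows, with the configuration given.
-/

namespace Pool.Agent.TH806.LM

open Finset Filter Topology MeasureTheory Complex MonoidAlgebra
open Pool.Agent.W184.NZ
open Pool.Agent.TH806 Pool.Agent.TH806.LK
open Pool.Agent.H306R2.SM (om cl Yf)
open Pool.Agent.H262R4.TM (Rng Ck)

noncomputable section

lemma Rs_all (K : ℝ) (R5 : ℕ) : ∃ R₁ : ℕ, ∀ Rs : ℕ, R₁ ≤ Rs → R5 ≤ Rs ∧ 1 ≤ Rs ∧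
    K * ((Rs:ℝ) + 1) * Real.exp (-(Rs:ℝ)) ≤ 1 := by
  refine ⟨max R5 (max 1 ⌈2 * K⌉₊), fun Rs hRs => ⟨(le_max_left _ _).trans hRs,
    ((le_max_left _ _).trans (le_max_right _ _)).trans hRs, ?_⟩⟩
  have h1 : 2 * K ≤ Rs := (Nat.le_ceil _).trans (by
    exact_mod_cast ((le_max_right 1 ⌈2 * K⌉₊).trans (le_max_right R5 _)).trans hRs)
  have h0 : (0:ℝ) ≤ Rs := Nat.cast_nonneg _
  have h2 := Real.quadratic_le_exp_of_nonneg h0
  rw [Real.exp_neg, ← div_eq_mul_inv, div_le_one (Real.exp_pos _)]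
  nlinarith

/-- the exceptional set is the complement of this set -/
def EE (Rs J : ℕ) (I : ℕ → Finset ℕ) (K : ℝ) : Set ℝ :=
  {t | gd Rs J I t ∧ Real.exp (-K) * Real.exp (xx I J t) ≤ Xz t ∧ Xz t ≤ Real.exp K * Real.exp (xx I J t)}

theorem t_WL (hPT : P_PT) (h1 : P_U1) (h2 : P_U2) (h3 : P_U3) (h4 : P_U4) (hL : P_LB) :
    ∀ B : ℝ, 0 ≤ B → ∀ c₀ : ℝ, 0 ≤ c₀ → ∃ (n P : ℕ) (e₀ η₀ : ℝ), 1 ≤ n ∧ B + 1 ≤ n ∧ 0 < e₀ ∧ e₀ ≤ 1 ∧ 0 < η₀ ∧
      η₀ ≤ 1 ∧ ∀ η : ℝ, 0 < η → η ≤ η₀ → ∀ CV : ℝ, 0 ≤ CV → ∃ R₁ : ℕ, ∀ Rs : ℕ, R₁ ≤ Rs →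
        ∃ c_out B' K : ℝ, 0 < c_out ∧ 0 < B' ∧ 0 < K ∧ ∀ᶠ T : ℝ in atTop, ∀ κ : ℕ, Rng T κ →
          ∀ (y : ℝ) (J : ℕ) (I : ℕ → Finset ℕ), Cfg c₀ e₀ P y J I →
            η / 16 * Real.log T ≤ n * ((Rs:ℝ) + 1) * Real.log y → n * ((Rs:ℝ) + 1) * Real.log y ≤ η * Real.log T →
            Real.log (Real.log y) - CV ≤ VV I J → ∀ k : ℝ, |k| ≤ B →
            c_out * (Real.exp (-(k ^ 2 * Real.log (Real.log T))) / Real.sqrt (Real.log (Real.log T))) ≤
              ∫ t in Set.Ioi (0:ℝ) ∩ (EE Rs J I K ∩ {t | |xx I J t - k * Real.log (Real.log T)| ≤ B'}),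
                om κ (κ / T) t := by
  intro B hB c₀ hc₀
  set n : ℕ := ⌈B⌉₊ + 1 with hn
  have hn1 : 1 ≤ n := by omega
  have hn1R : (1:ℝ) ≤ n := by exact_mod_cast hn1
  have hBn : B + 1 ≤ n := by rw [hn]; push_cast; linarith [Nat.le_ceil B]
  obtain ⟨P1, C1, η1, hC1, hη1, H1⟩ := h1 n c₀ hn1 hc₀
  obtain ⟨P2, C2, η2, hC2, hη2, H2⟩ := h2 n c₀ hn1 hc₀
  obtain ⟨P3, C3, η3, hC3, hη3, H3⟩ := h3 n c₀ hn1 hc₀
  obtain ⟨P4, C4, η4, hC4, hη4, H4⟩ := h4 n c₀ hn1 hc₀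
  obtain ⟨P5, R5, c₁, e₀, η5, hc₁, he₀, he1, hη5, H5⟩ := hL n c₀ hn1 hc₀
  obtain ⟨η₀, hη0, hη1', g1, g2, g3, g4, g5⟩ : ∃ η : ℝ, 0 < η ∧ η ≤ 1 ∧ η ≤ η1 ∧ η ≤ η2 ∧ η ≤ η3 ∧ η ≤ η4 ∧ η ≤ η5 := by
    refine ⟨min 1 (min η1 (min η2 (min η3 (min η4 η5)))), by positivity, min_le_left _ _, ?_, ?_, ?_, ?_, ?_⟩
    · exact (min_le_right _ _).trans (min_le_left _ _)
    · exact (min_le_right _ _).trans ((min_le_right _ _).trans (min_le_left _ _))
    · exact (min_le_right _ _).trans ((min_le_right _ _).trans ((min_le_right _ _).trans (min_le_left _ _)))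
    · exact (min_le_right _ _).trans ((min_le_right _ _).trans ((min_le_right _ _).trans
        ((min_le_right _ _).trans (min_le_left _ _))))
    · exact (min_le_right _ _).trans ((min_le_right _ _).trans ((min_le_right _ _).trans
        ((min_le_right _ _).trans (min_le_right _ _))))
  refine ⟨n, P1 + P2 + P3 + P4 + P5, e₀, η₀, hn1, hBn, he₀, he1, hη0, hη1', ?_⟩
  intro η hη hηη CV hCV
  obtain ⟨R₁, hR₁⟩ := Rs_all (64 * C3 * C4 * (Real.exp CV * (16 * n) / η) / c₁ ^ 2) R5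
  refine ⟨R₁, fun Rs hRs1' => ?_⟩
  obtain ⟨hR5, hR1, hRs⟩ := hR₁ Rs hRs1'
  have hRs1 : (1:ℝ) ≤ Rs := by exact_mod_cast hR1
  set cc : ℝ := η / 16 / (n * ((Rs:ℝ) + 1)) with hcc
  have hcc0 : 0 < cc := by positivity
  have hη1 : η ≤ 1 := hηη.trans hη1'
  have hcc1 : cc ≤ 1 := by
    rw [hcc, div_le_one (by positivity)]
    nlinarith
  set Λ : ℝ := Real.exp CV / cc with hΛ
  have hΛ0 : 0 < Λ := by positivity
  set lam : ℝ := c₁ / (8 * C4 * Λ) with hlam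
  have hlam0 : 0 < lam := by positivity
  set M' : ℝ := 32 * C4 * Λ / c₁ with hM'
  have hM'0 : 0 < M' := by positivity
  set c' : ℝ := c₁ / (128 * C1) with hc'
  have hc'0 : 0 < c' := by positivity
  set B' : ℝ := 1 + 4 * C2 / (lam * c₁) with hB'
  have hB'1 : 1 ≤ B' := by
    have : 0 < 4 * C2 / (lam * c₁) := by positivity
    linarith
  have hB'0 : 0 < B' := by linarith
  have hcB : 1 / (2 * lam * B' ^ 2) * C2 ≤ c₁ / 8 := by
    have e1 : 4 * C2 / (lam * c₁) ≤ B' ^ 2 := by nlinarith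
    rw [div_le_iff₀ (by positivity)] at e1
    rw [one_div, inv_mul_le_iff₀ (by positivity)]
    nlinarith
  have hcE : 1 / lam * (C3 * Real.exp (-(Rs:ℝ))) ≤ c₁ / 8 := by
    have e1 : 1 / lam * (C3 * Real.exp (-(Rs:ℝ))) =
        (64 * C3 * C4 * (Real.exp CV * (16 * n) / η) / c₁ ^ 2 * ((Rs:ℝ) + 1) * Real.exp (-(Rs:ℝ))) * (c₁ / 8) := by
      rw [hlam, hΛ, hcc]
      field_simp
      ring
    rw [e1]
    have := mul_le_mul_of_nonneg_right hRs (show 0 ≤ c₁ / 8 by positivity)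
    linarith
  set DV : ℝ := c₀ + CV + |Real.log cc| with hDV
  have hDV0 : 0 ≤ DV := by positivity
  set c_out : ℝ := c₁ / 4 / (64 * M' * Real.exp (2 * B * B')) *
    (Real.exp (-(B ^ 2 * DV)) * (2 + DV) ^ (-(1 / 2) : ℝ)) with hcout
  have h2DV : 0 < (2 + DV) ^ (-(1 / 2) : ℝ) := Real.rpow_pos_of_pos (by linarith) _
  set K : ℝ := 1 + |Real.log c'| + |Real.log M'| with hK
  refine ⟨c_out, B' + B * DV, K, by positivity, by positivity, by positivity, ?_⟩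
  filter_upwards [H1 Rs hR1, H2 Rs hR1, H3 Rs hR1, H4 Rs hR1, H5 Rs hR5 hR1, eventually_gt_atTop (0:ℝ),
    Real.tendsto_log_atTop.eventually_ge_atTop 1,
    (Real.tendsto_log_atTop.comp Real.tendsto_log_atTop).eventually_ge_atTop 1] with
    T h1T h2T h3T h4T h5T hT0 hL1 hl1 κ hκ y J I hcfg hylo hyhi hV k hk
  simp only [Function.comp] at hl1
  set L := Real.log T with hLd
  set l := Real.log L with hld
  have hL0 : 0 < L := by linarith
  have hnR : (0:ℝ) < n * ((Rs:ℝ) + 1) := by positivity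
  have hnR1 : (1:ℝ) ≤ n * ((Rs:ℝ) + 1) := by nlinarith
  have hylo' : cc * L ≤ Real.log y := by
    rw [hcc, div_mul_eq_mul_div, div_le_iff₀ hnR]; linarith
  have hly0 : 0 < Real.log y := lt_of_lt_of_le (by positivity) hylo'
  have hyhi' : Real.log y ≤ L := by
    have : η * L ≤ 1 * L := by gcongr
    nlinarith
  set V := VV I J with hVd
  have hV0 : 0 ≤ V := sum_nonneg fun i _ => vI_nonneg _
  have hVup : V ≤ l + c₀ := by
    have h6 := hcfg.vv
    have h7 : Real.log (Real.log y) ≤ l := Real.log_le_log hly0 hyhi'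
    linarith
  have hVV' : Real.log (cc * L) - CV ≤ V := by
    have h7 : Real.log (cc * L) ≤ Real.log (Real.log y) := Real.log_le_log (by positivity) hylo'
    linarith
  have hVlow : l - DV ≤ V := by
    have h8 := hVV'
    rw [Real.log_mul hcc0.ne' hL0.ne'] at h8
    have := neg_abs_le (Real.log cc)
    linarith
  have hk1 : |k| + 1 ≤ n := by linarith
  have hkn : |k| ≤ n := by linarith
  have hkn' : |k - 1| ≤ n := (abs_sub _ _).trans (by simpa using hk1)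
  have hκ0 : (0:ℝ) < κ := by
    have := hκ.1
    nlinarith
  have hδ : 0 < (κ:ℝ) / T := by positivity
  have hI : ∀ i, ∀ p ∈ I i, p.Prime := fun i p hp => (hcfg.rg.pr i p hp).1
  have hc1 : Cfg c₀ 1 P1 y J I := hcfg.mono he1 (by omega)
  have hc2 : Cfg c₀ 1 P2 y J I := hcfg.mono he1 (by omega)
  have hc3 : Cfg c₀ 1 P3 y J I := hcfg.mono he1 (by omega)
  have hc4 : Cfg c₀ 1 P4 y J I := hcfg.mono he1 (by omega)
  have hc5 : Cfg c₀ e₀ P5 y J I := hcfg.mono le_rfl (by omega)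
  have hlen : ∀ {η' : ℝ}, η₀ ≤ η' → n * ((Rs:ℝ) + 1) * Real.log y ≤ η' * L := fun h =>
    hyhi.trans (mul_le_mul_of_nonneg_right (hηη.trans h) hL0.le)
  have key := int_key hPT hI hn1 hR1 (κ := κ) (T := T) hδ (u := k * V) (k := k) hk1 hlam0 hB'0 hc'0 hM'0 (J := J)
  have low := h5T κ hκ _ J I hc5 (hlen g5) k hk1
  have u1 := h1T κ hκ _ J I hc1 (hlen g1) k (k * V) hkn
  have u2 := h2T κ hκ _ J I hc2 (hlen g2) k (k * V) hkn
  have u3 := h3T κ hκ _ J I hc3 (hlen g3) k (k * V) hkn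
  have u4 := h4T κ hκ _ J I hc4 (hlen g4) (k - 1) (k * V) hkn'
  set W := WW (k ^ 2) V with hW
  have hW0 : 0 < W := by unfold W WW; positivity
  have hWW : WW (2 * (k - 1) + (k - 1) ^ 2) V = W * Real.exp (-V) := by
    rw [hW]; unfold WW
    rw [mul_assoc, ← Real.exp_add]; congr 2; ring
  have hLT : L * Real.exp (-V) ≤ Λ := by
    have h6 := lam_T (V := V) hL1 hcc0 hVV'
    rw [Real.exp_neg]
    rw [mul_inv_le_iff₀ (Real.exp_pos _)]
    exact h6
  have u4' : ∫ t in Set.Ioi (0:ℝ), wz κ T t * AD n Rs J I (k - 1) (k * V) t ≤ C4 * (Λ * W) := by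
    refine u4.trans ?_
    rw [hWW]
    calc C4 * L * (W * Real.exp (-V)) = C4 * ((L * Real.exp (-V)) * W) := by ring
      _ ≤ C4 * (Λ * W) := by gcongr
  have u3' : ∑ i ∈ range J, ∫ t in Set.Ioi (0:ℝ), om κ (κ / T) t *
        ((‖zz I t i‖ / RR Rs i) ^ (2 * RR Rs i) * AD n Rs J I k (k * V) t) ≤
      2 * (C3 * Real.exp (-(Rs:ℝ))) * W := by
    refine (sum_le_sum fun i hi => u3 i (mem_range.mp hi)).trans ?_
    rw [← sum_mul, ← mul_sum]
    have h6 := sum_exp_le J Rs (RR_ge Rs)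
    calc C3 * (∑ i ∈ range J, Real.exp (-(RR Rs i : ℝ))) * W ≤ C3 * (2 * Real.exp (-(Rs:ℝ))) * W := by gcongr
      _ = _ := by ring
  have hfin := final_num (c₁ := c₁) (C1 := C1) (C2 := C2) (C3 := C3) (C4 := C4) (Λ := Λ) (W := W)
    (G := 64 * M' * Real.exp (2 * k * (k * V) + 2 * |k| * B'))
    (X := ∫ t in Set.Ioi (0:ℝ) ∩ SS Rs J I (k * V) B' c' M', om κ (κ / T) t)
    (lam := lam) (B' := B') (c' := c') (M' := M') (E := Real.exp (-(Rs:ℝ))) hc₁ hC1 hC4 hΛ0 hW0.le hlam hM' hc'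
    hcB hcE (by
      refine low.trans (key.trans ?_)
      gcongr)
  -- the set
  have r1 := neg_abs_le (Real.log c')
  have r2 := le_abs_self (Real.log M')
  have r3 := abs_nonneg (Real.log c')
  have r4 := abs_nonneg (Real.log M')
  have hcK : Real.exp (-K) ≤ c' := by
    rw [← Real.exp_log hc'0]
    exact Real.exp_le_exp.mpr (by rw [hK]; linarith)
  have hMK : M' ≤ Real.exp K := by
    rw [← Real.exp_log hM'0]
    exact Real.exp_le_exp.mpr (by rw [hK]; linarith)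
  have hSsub : SS Rs J I (k * V) B' c' M' ⊆ EE Rs J I K ∩ {t | |xx I J t - k * l| ≤ B' + B * DV} := by
    intro t ht
    obtain ⟨hg, hx, hlo, hhi⟩ := ht
    have hVl : |V - l| ≤ DV := by
      rw [abs_le]; constructor
      · linarith
      · have := abs_nonneg (Real.log cc)
        linarith
    have hxk : |xx I J t - k * l| ≤ B' + B * DV := by
      have e1 : xx I J t - k * l = (xx I J t - k * V) + k * (V - l) := by ring
      rw [e1]
      refine (abs_add_le _ _).trans (add_le_add hx ?_)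
      rw [abs_mul]
      exact mul_le_mul hk hVl (abs_nonneg _) hB
    refine ⟨⟨hg, le_trans ?_ hlo, hhi.trans ?_⟩, hxk⟩
    · exact mul_le_mul_of_nonneg_right hcK (Real.exp_pos _).le
    · exact mul_le_mul_of_nonneg_right hMK (Real.exp_pos _).le
  have hmono : ∫ t in Set.Ioi (0:ℝ) ∩ SS Rs J I (k * V) B' c' M', om κ (κ / T) t ≤
      ∫ t in Set.Ioi (0:ℝ) ∩ (EE Rs J I K ∩ {t | |xx I J t - k * l| ≤ B' + B * DV}), om κ (κ / T) t := by
    refine setIntegral_mono_set ((om_int0 κ hδ).mono_set Set.inter_subset_left) ?_ ?_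
    · refine ae_restrict_of_ae_restrict_of_subset Set.inter_subset_left ?_
      exact (ae_restrict_iff' measurableSet_Ioi).mpr (Eventually.of_forall fun t ht => om_nn κ hδ (le_of_lt ht))
    · exact (Set.inter_subset_inter_right _ hSsub).eventuallyLE
  refine le_trans ?_ hmono
  -- numbers
  have hww := fin_WW (B := B) hl1 hV0 hDV0 (show V ≤ l + DV by
    have := abs_nonneg (Real.log cc)
    linarith) hk
  have hGpos : 0 < 64 * M' * Real.exp (2 * k * (k * V) + 2 * |k| * B') := by positivity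
  have hXlow : c₁ / 4 * W / (64 * M' * Real.exp (2 * k * (k * V) + 2 * |k| * B')) ≤
      ∫ t in Set.Ioi (0:ℝ) ∩ SS Rs J I (k * V) B' c' M', om κ (κ / T) t := by
    rw [div_le_iff₀ hGpos]; linarith
  refine le_trans ?_ hXlow
  have e5 : c₁ / 4 * W / (64 * M' * Real.exp (2 * k * (k * V) + 2 * |k| * B')) =
      c₁ / 4 / (64 * M' * Real.exp (2 * |k| * B')) * ((1 + V) ^ (-(1 / 2) : ℝ) * Real.exp (-(k ^ 2 * V))) := by
    rw [hW]; unfold WW
    have e6 : Real.exp (2 * k * (k * V) + 2 * |k| * B') =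
        Real.exp (k ^ 2 * V) * Real.exp (k ^ 2 * V) * Real.exp (2 * |k| * B') := by
      rw [← Real.exp_add, ← Real.exp_add]; congr 1; ring
    rw [e6, Real.exp_neg]
    field_simp
  rw [e5]
  have e7 : c₁ / 4 / (64 * M' * Real.exp (2 * B * B')) ≤ c₁ / 4 / (64 * M' * Real.exp (2 * |k| * B')) := by
    gcongr
  calc c_out * (Real.exp (-(k ^ 2 * l)) / Real.sqrt l) =
      c₁ / 4 / (64 * M' * Real.exp (2 * B * B')) *
        (Real.exp (-(B ^ 2 * DV)) * (2 + DV) ^ (-(1 / 2) : ℝ) * (Real.exp (-(k ^ 2 * l)) / Real.sqrt l)) := by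
        rw [hcout]; ring
    _ ≤ c₁ / 4 / (64 * M' * Real.exp (2 * |k| * B')) * ((1 + V) ^ (-(1 / 2) : ℝ) * Real.exp (-(k ^ 2 * V))) := by
        refine mul_le_mul e7 hww (by positivity) (by positivity)

end

end Pool.Agent.TH806.LM
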