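import Pool.Agent.TH806.LM.WL

set_option autoImplicit false

/-!
LM project: the two-sided bounds in the windows.
-/

namespace Pool.Agent.TH806.LM

open Finset Filter Topology MeasureTheory Complex MonoidAlgebra
open Pool.Agent.W184.NZ
open Pool.Agent.TH806 Pool.Agent.TH806.LK
open Pool.Agent.H306R2.SM (om cl Yf)
open Pool.Agent.H262R4.TM (Rng Ck)

noncomputable section

/-- the level sets -/
def Lev (V W : ℝ) : Set ℝ := {t | Real.exp (V - W) ≤ Xz t ∧ Xz t ≤ Real.exp (V + W)}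

lemma Lev_meas (V W : ℝ) : MeasurableSet (Lev V W) :=
  (measurableSet_le measurable_const Xz_cont.measurable).inter
    (measurableSet_le Xz_cont.measurable measurable_const)

lemma gd_meas {Rs J : ℕ} {I : ℕ → Finset ℕ} (hz : ∀ i, Continuous fun t => zz I t i) :
    MeasurableSet {t | gd Rs J I t} := by
  have : {t | gd Rs J I t} = ⋂ i, ⋂ (_ : i < J), {t | ‖zz I t i‖ ≤ RR Rs i} := by
    ext t; simp [gd]
  rw [this]
  exact MeasurableSet.iInter fun i => MeasurableSet.iInter fun _ =>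
    measurableSet_le (hz i).norm.measurable measurable_const

lemma EE_meas {Rs J : ℕ} {I : ℕ → Finset ℕ} (hz : ∀ i, Continuous fun t => zz I t i) (K : ℝ) :
    MeasurableSet (EE Rs J I K) := by
  have hx := xx_cont (J := J) hz
  exact (gd_meas hz).inter ((measurableSet_le (by have := hx.measurable; fun_prop) Xz_cont.measurable).inter
    (measurableSet_le Xz_cont.measurable (by have := hx.measurable; fun_prop)))

lemma EE_mono {Rs J : ℕ} {I : ℕ → Finset ℕ} {K K' : ℝ} (h : K ≤ K') : EE Rs J I K ⊆ EE Rs J I K' := by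
  rintro t ⟨h1, h2, h3⟩
  refine ⟨h1, le_trans ?_ h2, h3.trans ?_⟩
  · gcongr
  · gcongr

/-- the exceptional set in a window -/
lemma exc (hPT : P_PT) {n Rs J : ℕ} {I : ℕ → Finset ℕ} (hI : ∀ i, ∀ p ∈ I i, p.Prime) (hn : 1 ≤ n)
    (hRs : 1 ≤ Rs) {κ : ℕ} {T K C3 D F : ℝ} (hδ : 0 < (κ:ℝ) / T) (hC3 : 0 ≤ C3)
    (S3 : ∀ i < J, ∫ t in Set.Ioi (0:ℝ), om κ (κ / T) t * (‖zz I t i‖ / RR Rs i) ^ (2 * RR Rs i) ≤
      C3 * Real.exp (-(RR Rs i : ℝ)))
    (S4 : ∫ t in Set.Ioi (0:ℝ), wz κ T t * ‖AZ n Rs J (-1) (zz I t)‖ ^ 2 ≤ D)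
    (SJ : ∫ t in Set.Ioi (0:ℝ) ∩ {t | Xz t * ‖AZ n Rs J (-1) (zz I t)‖ ≤ Real.exp (-(K - 1))}, om κ (κ / T) t ≤ F) :
    ∫ t in Set.Ioi (0:ℝ) ∩ (EE Rs J I K)ᶜ, om κ (κ / T) t ≤
      2 * C3 * Real.exp (-(Rs:ℝ)) + 4 * Real.exp (-(2 * K)) * D + F := by
  obtain ⟨hP1, hP2⟩ := hPT
  have hhc : Continuous hh := by unfold hh; fun_prop
  obtain ⟨cA, _, cz, Bk, hBk⟩ := hP1 n Rs J I (-1) 0 hh hI hhc
  have hz0 : ∀ t, ∀ i < J, ‖zz I t i‖ ≤ |Bk| := fun t i hi => ((hBk t).2.2 i hi).trans (le_abs_self _)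
  have iom : IntegrableOn (fun t => om κ (κ / T) t) (Set.Ioi 0) := om_int0 _ hδ
  have iF : ∀ {F : ℝ → ℝ} {C : ℝ}, Continuous F → (∀ t, |F t| ≤ C) →
      IntegrableOn (fun t => om κ (κ / T) t * F t) (Set.Ioi 0) := by
    intro F C hF hC
    refine iom.mul_bdd (c := C) hF.aestronglyMeasurable (Eventually.of_forall fun t => ?_)
    rw [Real.norm_eq_abs]; exact hC t
  have j2 : ∀ i ∈ range J, IntegrableOn (fun t => om κ (κ / T) t *
      (‖zz I t i‖ / RR Rs i) ^ (2 * RR Rs i)) (Set.Ioi 0) := by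
    intro i hi
    refine iF (((cz i).norm.div_const _).pow _) (C := (|Bk| / RR Rs i) ^ (2 * RR Rs i)) fun t => ?_
    rw [abs_of_nonneg (by positivity)]
    have h1 := hz0 t i (mem_range.mp hi)
    gcongr
  have j4 : IntegrableOn (fun t => wz κ T t * ‖AZ n Rs J (-1) (zz I t)‖ ^ 2) (Set.Ioi 0) :=
    wz_int κ hδ (cA.norm.pow 2) (C := Bk ^ 2) fun t => by
      rw [abs_of_nonneg (by positivity)]
      have := (hBk t).1
      gcongr
  set SJ' : Set ℝ := {t | Xz t * ‖AZ n Rs J (-1) (zz I t)‖ ≤ Real.exp (-(K - 1))} with hSJ'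
  have mJ : MeasurableSet SJ' := measurableSet_le (Xz_cont.mul cA.norm).measurable measurable_const
  have j5 : IntegrableOn (SJ'.indicator fun t => om κ (κ / T) t) (Set.Ioi 0) := iom.indicator mJ
  have mE := EE_meas (Rs := Rs) (J := J) cz K
  have e0 : ∫ t in Set.Ioi (0:ℝ) ∩ (EE Rs J I K)ᶜ, om κ (κ / T) t =
      ∫ t in Set.Ioi (0:ℝ), ((EE Rs J I K)ᶜ).indicator (fun t => om κ (κ / T) t) t := by
    rw [setIntegral_indicator mE.compl]
  have eJ : ∫ t in Set.Ioi (0:ℝ) ∩ SJ', om κ (κ / T) t =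
      ∫ t in Set.Ioi (0:ℝ), SJ'.indicator (fun t => om κ (κ / T) t) t := by
    rw [setIntegral_indicator mJ]
  rw [eJ] at SJ
  rw [e0]
  have hpt : ∀ t ∈ Set.Ioi (0:ℝ), ((EE Rs J I K)ᶜ).indicator (fun t => om κ (κ / T) t) t ≤
      (∑ i ∈ range J, om κ (κ / T) t * (‖zz I t i‖ / RR Rs i) ^ (2 * RR Rs i)) +
        4 * Real.exp (-(2 * K)) * (wz κ T t * ‖AZ n Rs J (-1) (zz I t)‖ ^ 2) +
        SJ'.indicator (fun t => om κ (κ / T) t) t := by
    intro t ht
    have hom : 0 ≤ om κ (κ / T) t := om_nn κ hδ (le_of_lt ht)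
    have a1 : 0 ≤ ∑ i ∈ range J, om κ (κ / T) t * (‖zz I t i‖ / RR Rs i) ^ (2 * RR Rs i) :=
      sum_nonneg fun i _ => by positivity
    have a1' : ∑ i ∈ range J, om κ (κ / T) t * (‖zz I t i‖ / RR Rs i) ^ (2 * RR Rs i) =
      om κ (κ / T) t * bd Rs J I t := by unfold bd; rw [mul_sum]
    have e3 : wz κ T t = om κ (κ / T) t * Xz t ^ 2 := rfl
    have a2 : 0 ≤ 4 * Real.exp (-(2 * K)) * (wz κ T t * ‖AZ n Rs J (-1) (zz I t)‖ ^ 2) := by
      rw [e3]; positivity
    have a3 : 0 ≤ SJ'.indicator (fun t => om κ (κ / T) t) t := by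
      by_cases h : t ∈ SJ'
      · rw [Set.indicator_of_mem h]; exact hom
      · rw [Set.indicator_of_notMem h]
    by_cases hE : t ∈ EE Rs J I K
    · rw [Set.indicator_of_notMem (Set.notMem_compl_iff.mpr hE)]
      linarith
    rw [Set.indicator_of_mem hE]
    by_cases hg : gd Rs J I t
    · obtain ⟨ha, _⟩ := hP2 n Rs J (zz I t) hn hRs hg
      obtain ⟨b1, b2⟩ := ha (-1) (by rw [abs_neg, abs_one]; exact_mod_cast hn)
      change Real.exp (-1 * xx I J t) / 2 ≤ _ at b1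
      change _ ≤ 2 * Real.exp (-1 * xx I J t) at b2
      have hxe : Real.exp (xx I J t) * Real.exp (-1 * xx I J t) = 1 := by
        rw [← Real.exp_add]; simp
      by_cases hlo : Real.exp (-K) * Real.exp (xx I J t) ≤ Xz t
      · have hhi : Real.exp K * Real.exp (xx I J t) < Xz t := by
          by_contra h
          exact hE ⟨hg, hlo, not_lt.mp h⟩
        have c1 : Real.exp K / 2 ≤ Xz t * ‖AZ n Rs J (-1) (zz I t)‖ := by
          calc Real.exp K / 2 = (Real.exp K * Real.exp (xx I J t)) * (Real.exp (-1 * xx I J t) / 2) := by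
                rw [mul_assoc, ← mul_div_assoc, hxe]; ring
            _ ≤ Xz t * ‖AZ n Rs J (-1) (zz I t)‖ := by
                have := Xz_nonneg t
                gcongr
        have c2 : 1 ≤ 4 * Real.exp (-(2 * K)) * (Xz t * ‖AZ n Rs J (-1) (zz I t)‖) ^ 2 := by
          have c3 := pow_le_pow_left₀ (by positivity) c1 2
          have c4 : Real.exp (-(2 * K)) * Real.exp K ^ 2 = 1 := by
            rw [← Real.exp_nat_mul, ← Real.exp_add]
            simp
          calc (1:ℝ) = 4 * Real.exp (-(2 * K)) * (Real.exp K / 2) ^ 2 := by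
                have : 4 * Real.exp (-(2 * K)) * (Real.exp K / 2) ^ 2 =
                  Real.exp (-(2 * K)) * Real.exp K ^ 2 := by ring
                rw [this, c4]
            _ ≤ _ := by gcongr
        have c5 := mul_le_mul_of_nonneg_left c2 hom
        have c6 : om κ (κ / T) t * (4 * Real.exp (-(2 * K)) * (Xz t * ‖AZ n Rs J (-1) (zz I t)‖) ^ 2) =
            4 * Real.exp (-(2 * K)) * (wz κ T t * ‖AZ n Rs J (-1) (zz I t)‖ ^ 2) := by
          rw [e3]; ring
        rw [c6] at c5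
        linarith
      · push Not at hlo
        have hm : t ∈ SJ' := by
          change Xz t * ‖AZ n Rs J (-1) (zz I t)‖ ≤ Real.exp (-(K - 1))
          have h2e : (2:ℝ) ≤ Real.exp 1 := by linarith [Real.add_one_le_exp (1:ℝ)]
          calc Xz t * ‖AZ n Rs J (-1) (zz I t)‖ ≤
                (Real.exp (-K) * Real.exp (xx I J t)) * (2 * Real.exp (-1 * xx I J t)) := by
                have := Xz_nonneg t
                gcongr
            _ = 2 * Real.exp (-K) * (Real.exp (xx I J t) * Real.exp (-1 * xx I J t)) := by ring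
            _ = 2 * Real.exp (-K) := by rw [hxe, mul_one]
            _ ≤ Real.exp 1 * Real.exp (-K) := by gcongr
            _ = Real.exp (-(K - 1)) := by rw [← Real.exp_add]; congr 1; ring
        rw [Set.indicator_of_mem hm]
        linarith
    · have h5 := bd_one hRs hg
      rw [a1']
      have := mul_le_mul_of_nonneg_left h5 hom
      linarith
  have i1 := integrable_finsetSum _ j2
  have i2 := j4.const_mul (4 * Real.exp (-(2 * K)))
  have hle := setIntegral_mono_on (iom.indicator mE.compl) ((i1.add i2).add j5) measurableSet_Ioi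
    (fun t ht => by simpa only [Pi.add_apply] using hpt t ht)
  refine hle.trans ?_
  rw [integral_add' (i1.add i2) j5, integral_add' i1 i2, integral_const_mul, integral_finsetSum _ j2]
  have k1 : ∑ i ∈ range J, ∫ t in Set.Ioi (0:ℝ), om κ (κ / T) t * (‖zz I t i‖ / RR Rs i) ^ (2 * RR Rs i) ≤
      2 * C3 * Real.exp (-(Rs:ℝ)) := by
    refine (sum_le_sum fun i hi => S3 i (mem_range.mp hi)).trans ?_
    rw [← mul_sum]
    have h6 := sum_exp_le J Rs (RR_ge Rs)
    calc C3 * (∑ i ∈ range J, Real.exp (-(RR Rs i : ℝ))) ≤ C3 * (2 * Real.exp (-(Rs:ℝ))) := by gcongr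
      _ = _ := by ring
  have k2 := mul_le_mul_of_nonneg_left S4 (by positivity : 0 ≤ 4 * Real.exp (-(2 * K)))
  linarith

/-- the upper bound in a unit window, in terms of the localised mean square -/
lemma unit_up (hPT : P_PT) {n Rs J R₀ : ℕ} {I : ℕ → Finset ℕ}
    (hDL : ∀ (n Rs J : ℕ) (z : ℕ → ℂ) (u : ℝ), 1 ≤ n → 1 ≤ Rs → R₀ ≤ Rs →
      (∀ i < J, ‖z i‖ ≤ RR Rs i) → |(∑ i ∈ range J, (z i).re) - u| ≤ 1 → 1 / 2 ≤ ‖DK n Rs J hh u z‖)
    (hI : ∀ i, ∀ p ∈ I i, p.Prime) (hn : 1 ≤ n) (hRs : 1 ≤ Rs) (hR₀ : R₀ ≤ Rs) {κ : ℕ} {T : ℝ}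
    (hδ : 0 < (κ:ℝ) / T) {a u : ℝ} (ha : |a| ≤ n) :
    ∫ t in Set.Ioi (0:ℝ) ∩ {t | gd Rs J I t ∧ |xx I J t - u| ≤ 1}, om κ (κ / T) t ≤
      16 * Real.exp (2 * |a| - 2 * a * u) * ∫ t in Set.Ioi (0:ℝ), om κ (κ / T) t * AD n Rs J I a u t := by
  obtain ⟨hP1, hP2⟩ := hPT
  have hhc : Continuous hh := by unfold hh; fun_prop
  obtain ⟨cA, cD, cz, Bk, hBk⟩ := hP1 n Rs J I a u hh hI hhc
  have cx := xx_cont (J := J) cz
  have cAD : Continuous (AD n Rs J I a u) := by
    unfold AD; exact (cA.norm.pow 2).mul (cD.norm.pow 2)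
  have AD0 : ∀ t, 0 ≤ AD n Rs J I a u t := fun t => by unfold AD; positivity
  have bAD : ∀ t, AD n Rs J I a u t ≤ Bk ^ 2 * Bk ^ 2 := fun t => by
    unfold AD
    have h1 := (hBk t).1
    have h2 := (hBk t).2.1
    gcongr
  have iom : IntegrableOn (fun t => om κ (κ / T) t) (Set.Ioi 0) := om_int0 _ hδ
  have j4 : IntegrableOn (fun t => om κ (κ / T) t * AD n Rs J I a u t) (Set.Ioi 0) := by
    refine iom.mul_bdd (c := Bk ^ 2 * Bk ^ 2) cAD.aestronglyMeasurable (Eventually.of_forall fun t => ?_)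
    rw [Real.norm_eq_abs, abs_of_nonneg (AD0 t)]; exact bAD t
  have mS : MeasurableSet {t | gd Rs J I t ∧ |xx I J t - u| ≤ 1} :=
    (gd_meas cz).inter (measurableSet_le (cx.sub continuous_const).abs.measurable measurable_const)
  rw [← setIntegral_indicator mS, ← integral_const_mul]
  refine setIntegral_mono_on (iom.indicator mS) (j4.const_mul _) measurableSet_Ioi fun t ht => ?_
  have hom : 0 ≤ om κ (κ / T) t := om_nn κ hδ (le_of_lt ht)
  by_cases hS : t ∈ {t | gd Rs J I t ∧ |xx I J t - u| ≤ 1}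
  · rw [Set.indicator_of_mem hS]
    obtain ⟨hg, hx⟩ := hS
    have b1 := ((hP2 n Rs J (zz I t) hn hRs hg).1 a ha).1
    change Real.exp (a * xx I J t) / 2 ≤ _ at b1
    have b2 := hDL n Rs J (zz I t) u hn hRs hR₀ hg hx
    have b3 : Real.exp (2 * a * u - 2 * |a|) / 16 ≤ AD n Rs J I a u t := by
      unfold AD
      have c1 : Real.exp (2 * a * u - 2 * |a|) ≤ Real.exp (a * xx I J t) ^ 2 := by
        rw [← Real.exp_nat_mul]
        apply Real.exp_le_exp.mpr
        have c2 : -(|a| * 1) ≤ a * (xx I J t - u) := by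
          have c3 : |a * (xx I J t - u)| ≤ |a| * 1 := by
            rw [abs_mul]; exact mul_le_mul_of_nonneg_left hx (abs_nonneg _)
          linarith [neg_abs_le (a * (xx I J t - u))]
        push_cast
        linarith
      calc Real.exp (2 * a * u - 2 * |a|) / 16 ≤ Real.exp (a * xx I J t) ^ 2 / 16 := by gcongr
        _ = (Real.exp (a * xx I J t) / 2) ^ 2 * (1 / 2) ^ 2 := by ring
        _ ≤ _ := by gcongr
    have b4 : Real.exp (2 * |a| - 2 * a * u) * Real.exp (2 * a * u - 2 * |a|) = 1 := by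
      rw [← Real.exp_add]; simp
    calc om κ (κ / T) t = om κ (κ / T) t * (16 * (Real.exp (2 * |a| - 2 * a * u) *
          (Real.exp (2 * a * u - 2 * |a|) / 16))) := by
          rw [← mul_div_assoc, b4]; ring
      _ ≤ om κ (κ / T) t * (16 * (Real.exp (2 * |a| - 2 * a * u) * AD n Rs J I a u t)) := by gcongr
      _ = _ := by ring
  · rw [Set.indicator_of_notMem hS]
    have := AD0 t
    positivity

/-- powers of zeta off the exceptional set -/
lemma Xz_pow_E {Rs J : ℕ} {I : ℕ → Finset ℕ} {K k t : ℝ} (_hK : 0 ≤ K) (ht : t ∈ EE Rs J I K) :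
    Xz t ^ (2 * k) ≤ Real.exp (2 * |k| * K) * Real.exp (2 * k * xx I J t) := by
  obtain ⟨_, h1, h2⟩ := ht
  rw [← Real.exp_add] at h1 h2 ⊢
  have h0 : 0 < Xz t := lt_of_lt_of_le (Real.exp_pos _) h1
  rw [Real.rpow_def_of_pos h0]
  apply Real.exp_le_exp.mpr
  have l1 : -K + xx I J t ≤ Real.log (Xz t) := by rwa [Real.le_log_iff_exp_le h0]
  have l2 : Real.log (Xz t) ≤ K + xx I J t := by rwa [Real.log_le_iff_le_exp h0]
  rcases le_total 0 k with hk | hk
  · rw [abs_of_nonneg hk]; nlinarith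
  · rw [abs_of_nonpos hk]; nlinarith

/-- the moments off the exceptional set -/
lemma mom_up (hPT : P_PT) {n Rs J : ℕ} {I : ℕ → Finset ℕ} (hI : ∀ i, ∀ p ∈ I i, p.Prime) (hn : 1 ≤ n)
    (hRs : 1 ≤ Rs) {κ : ℕ} {T K k : ℝ} (hK : 0 ≤ K) (hδ : 0 < (κ:ℝ) / T) (hk : |k| ≤ n) :
    IntegrableOn (fun t => om κ (κ / T) t * (EE Rs J I K).indicator (fun t => Xz t ^ (2 * k)) t) (Set.Ioi 0) ∧
    ∫ t in Set.Ioi (0:ℝ), om κ (κ / T) t * (EE Rs J I K).indicator (fun t => Xz t ^ (2 * k)) t ≤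
      4 * Real.exp (2 * |k| * K) * ∫ t in Set.Ioi (0:ℝ), om κ (κ / T) t * ‖AZ n Rs J k (zz I t)‖ ^ 2 := by
  obtain ⟨hP1, hP2⟩ := hPT
  have hhc : Continuous hh := by unfold hh; fun_prop
  obtain ⟨cA, cD, cz, Bk, hBk⟩ := hP1 n Rs J I k 0 hh hI hhc
  have iom : IntegrableOn (fun t => om κ (κ / T) t) (Set.Ioi 0) := om_int0 _ hδ
  have j4 : IntegrableOn (fun t => om κ (κ / T) t * ‖AZ n Rs J k (zz I t)‖ ^ 2) (Set.Ioi 0) := by
    refine iom.mul_bdd (c := Bk ^ 2) (cA.norm.pow 2).aestronglyMeasurable (Eventually.of_forall fun t => ?_)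
    rw [Real.norm_eq_abs, abs_of_nonneg (by positivity)]
    have h1 := (hBk t).1
    gcongr
  have mE := EE_meas (Rs := Rs) (J := J) cz K
  have hpt : ∀ t ∈ Set.Ioi (0:ℝ), om κ (κ / T) t * (EE Rs J I K).indicator (fun t => Xz t ^ (2 * k)) t ≤
      4 * Real.exp (2 * |k| * K) * (om κ (κ / T) t * ‖AZ n Rs J k (zz I t)‖ ^ 2) := by
    intro t ht
    have hom : 0 ≤ om κ (κ / T) t := om_nn κ hδ (le_of_lt ht)
    by_cases hE : t ∈ EE Rs J I K
    · rw [Set.indicator_of_mem hE]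
      have h1 := Xz_pow_E (k := k) hK hE
      have b1 := ((hP2 n Rs J (zz I t) hn hRs hE.1).1 k hk).1
      change Real.exp (k * xx I J t) / 2 ≤ _ at b1
      have h2 : Real.exp (2 * k * xx I J t) ≤ 4 * ‖AZ n Rs J k (zz I t)‖ ^ 2 := by
        have h3 := pow_le_pow_left₀ (by positivity) b1 2
        have h4 : (Real.exp (k * xx I J t) / 2) ^ 2 = Real.exp (2 * k * xx I J t) / 4 := by
          rw [div_pow, ← Real.exp_nat_mul]; congr 2
          · push_cast; ring
          · norm_num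
        linarith
      calc om κ (κ / T) t * Xz t ^ (2 * k) ≤
            om κ (κ / T) t * (Real.exp (2 * |k| * K) * (4 * ‖AZ n Rs J k (zz I t)‖ ^ 2)) := by
            refine mul_le_mul_of_nonneg_left (h1.trans ?_) hom
            gcongr
        _ = _ := by ring
    · rw [Set.indicator_of_notMem hE, mul_zero]
      positivity
  have hnn : ∀ t ∈ Set.Ioi (0:ℝ), 0 ≤ om κ (κ / T) t * (EE Rs J I K).indicator (fun t => Xz t ^ (2 * k)) t := by
    intro t ht
    refine mul_nonneg (om_nn κ hδ (le_of_lt ht)) (Set.indicator_nonneg (fun t _ => ?_) t)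
    exact Real.rpow_nonneg (Xz_nonneg t) _
  have hmeas : Measurable fun t => om κ (κ / T) t * (EE Rs J I K).indicator (fun t => Xz t ^ (2 * k)) t := by
    refine Measurable.mul ?_ ((Xz_cont.measurable.pow_const _).indicator mE)
    exact (Pool.Agent.H262R4.TM.TTW.om_cont κ _).measurable
  have hint : IntegrableOn (fun t => om κ (κ / T) t * (EE Rs J I K).indicator (fun t => Xz t ^ (2 * k)) t)
      (Set.Ioi 0) := by
    refine (j4.const_mul (4 * Real.exp (2 * |k| * K))).mono' hmeas.aestronglyMeasurable ?_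
    refine (ae_restrict_iff' measurableSet_Ioi).mpr (Eventually.of_forall fun t ht => ?_)
    rw [Real.norm_of_nonneg (hnn t ht)]
    exact hpt t ht
  refine ⟨hint, ?_⟩
  rw [← integral_const_mul]
  exact setIntegral_mono_on hint (j4.const_mul _) measurableSet_Ioi hpt

end

end Pool.Agent.TH806.LM
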