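import Pool.Agent.TH806.LM.Win2

set_option autoImplicit false

/-!
LM project: the windows theorem.
-/

namespace Pool.Agent.TH806.LM

open Finset Filter Topology MeasureTheory Complex MonoidAlgebra
open Pool.Agent.W184.NZ
open Pool.Agent.TH806 Pool.Agent.TH806.LK
open Pool.Agent.H306R2.SM (om cl Yf)
open Pool.Agent.H262R4.TM (Rng Ck)

noncomputable section

/-- the Gaussian weight -/
def gg (l V : ℝ) : ℝ := Real.exp (-(V ^ 2 / l)) / Real.sqrt l

lemma gg_nonneg (l V : ℝ) : 0 ≤ gg l V := by unfold gg; positivity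

lemma cmp_up {l V0 V u DV N B : ℝ} (hl : 1 ≤ l) (hDV : 2 * DV ≤ l) (hV0 : |V0 - l| ≤ DV) (hV : |V| ≤ B * l)
    (hB : 0 ≤ B) (hu : |u - V| ≤ N) (hN : 0 ≤ N) :
    (1 + V0) ^ (-(1 / 2) : ℝ) * Real.exp (-(u ^ 2 / V0)) ≤
      2 * Real.exp (2 * B ^ 2 * DV + 4 * B * N + 2 * N ^ 2) * gg l V := by
  have hl0 : 0 < l := by linarith
  obtain ⟨q1, q2⟩ := abs_le.mp hV0
  have hV2 : l / 2 ≤ V0 := by linarith
  have hV00 : 0 < V0 := by linarith
  have hDV0 : 0 ≤ DV := (abs_nonneg _).trans hV0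
  have hVB : V ^ 2 ≤ (B * l) ^ 2 := by rw [← sq_abs V]; exact pow_le_pow_left₀ (abs_nonneg _) hV 2
  have h1 : V ^ 2 / l - V ^ 2 / V0 ≤ 2 * B ^ 2 * DV := by
    have e1 : V ^ 2 / l - V ^ 2 / V0 = V ^ 2 * (V0 - l) / (l * V0) := by field_simp
    rw [e1, div_le_iff₀ (by positivity)]
    calc V ^ 2 * (V0 - l) ≤ V ^ 2 * DV := mul_le_mul_of_nonneg_left q2 (sq_nonneg _)
      _ ≤ (B * l) ^ 2 * DV := mul_le_mul_of_nonneg_right hVB hDV0
      _ = 2 * B ^ 2 * DV * (l * (l / 2)) := by ring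
      _ ≤ _ := by gcongr
  have h2 : V ^ 2 / V0 - u ^ 2 / V0 ≤ 4 * B * N + 2 * N ^ 2 := by
    rw [← sub_div, div_le_iff₀ hV00]
    have e2 : V ^ 2 - u ^ 2 ≤ N * (2 * (B * l) + N) := by
      have e3 : V ^ 2 - u ^ 2 = (-(u - V)) * (2 * V + (u - V)) := by ring
      rw [e3]
      calc (-(u - V)) * (2 * V + (u - V)) ≤ |(-(u - V)) * (2 * V + (u - V))| := le_abs_self _
        _ = |u - V| * |2 * V + (u - V)| := by rw [abs_mul, abs_neg]
        _ ≤ N * (2 * (B * l) + N) := by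
            refine mul_le_mul hu ?_ (abs_nonneg _) hN
            refine (abs_add_le _ _).trans (add_le_add ?_ hu)
            rw [abs_mul, abs_of_pos (by norm_num : (0:ℝ) < 2)]
            linarith
    calc V ^ 2 - u ^ 2 ≤ N * (2 * (B * l) + N) := e2
      _ ≤ (4 * B * N + 2 * N ^ 2) * (l / 2) := by nlinarith [mul_nonneg (sq_nonneg N) (sub_nonneg.mpr hl)]
      _ ≤ _ := by gcongr
  have h3 : Real.exp (-(u ^ 2 / V0)) ≤ Real.exp (2 * B ^ 2 * DV + 4 * B * N + 2 * N ^ 2) * Real.exp (-(V ^ 2 / l)) := by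
    rw [← Real.exp_add]
    apply Real.exp_le_exp.mpr
    linarith
  have h4 : (1 + V0) ^ (-(1 / 2) : ℝ) ≤ 2 * (1 / Real.sqrt l) := by
    have e1 : 1 / Real.sqrt l = l ^ (-(1 / 2) : ℝ) := by
      rw [Real.sqrt_eq_rpow, Real.rpow_neg (by linarith), one_div]
    have e4 : (l / 4) ^ (-(1 / 2) : ℝ) = 2 * l ^ (-(1 / 2) : ℝ) := by
      rw [Real.div_rpow hl0.le (by norm_num), Real.rpow_neg (by norm_num : (0:ℝ) ≤ 4),
        show (4:ℝ) = 2 ^ (2:ℝ) by norm_num, ← Real.rpow_mul (by norm_num)]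
      norm_num
      ring
    rw [e1, ← e4]
    exact Real.rpow_le_rpow_of_nonpos (by positivity) (by linarith) (by norm_num)
  calc (1 + V0) ^ (-(1 / 2) : ℝ) * Real.exp (-(u ^ 2 / V0)) ≤ (2 * (1 / Real.sqrt l)) *
        (Real.exp (2 * B ^ 2 * DV + 4 * B * N + 2 * N ^ 2) * Real.exp (-(V ^ 2 / l))) := by gcongr
    _ = _ := by unfold gg; ring

lemma cmp_low {l lx V B : ℝ} (hl : 1 ≤ l) (hlx : 1 ≤ lx) (h : |lx - l| ≤ 1) (hV : |V| ≤ B * l) :
    Real.exp (-(2 * B ^ 2)) / 2 * gg l V ≤ Real.exp (-((V / lx) ^ 2 * lx)) / Real.sqrt lx := by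
  have hl0 : 0 < l := by linarith
  have hx0 : 0 < lx := by linarith
  obtain ⟨q1, q2⟩ := abs_le.mp h
  have hVB : V ^ 2 ≤ (B * l) ^ 2 := by rw [← sq_abs V]; exact pow_le_pow_left₀ (abs_nonneg _) hV 2
  have e0 : (V / lx) ^ 2 * lx = V ^ 2 / lx := by field_simp
  have h1 : V ^ 2 / lx ≤ V ^ 2 / l + 2 * B ^ 2 := by
    have e1 : V ^ 2 / lx - V ^ 2 / l = V ^ 2 * (l - lx) / (l * lx) := by field_simp
    have h2 : V ^ 2 * (l - lx) / (l * lx) ≤ 2 * B ^ 2 := by
      rw [div_le_iff₀ (by positivity)]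
      calc V ^ 2 * (l - lx) ≤ V ^ 2 * 1 := mul_le_mul_of_nonneg_left (by linarith) (sq_nonneg _)
        _ ≤ (B * l) ^ 2 := by rw [mul_one]; exact hVB
        _ = 2 * B ^ 2 * (l * (l / 2)) := by ring
        _ ≤ _ := by
            gcongr
            linarith
    linarith
  have h3 : Real.exp (-(2 * B ^ 2)) * Real.exp (-(V ^ 2 / l)) ≤ Real.exp (-(V ^ 2 / lx)) := by
    rw [← Real.exp_add]
    exact Real.exp_le_exp.mpr (by linarith)
  have h4 : 1 / 2 * (1 / Real.sqrt l) ≤ 1 / Real.sqrt lx := by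
    have e2 : Real.sqrt lx ≤ 2 * Real.sqrt l := by
      have : Real.sqrt lx ≤ Real.sqrt (4 * l) := Real.sqrt_le_sqrt (by linarith)
      rwa [Real.sqrt_mul (by norm_num), show Real.sqrt 4 = 2 by
        rw [show (4:ℝ) = 2 ^ 2 by norm_num]; exact Real.sqrt_sq (by norm_num)] at this
    have s1 : 0 < Real.sqrt lx := Real.sqrt_pos.mpr hx0
    have s2 : 0 < Real.sqrt l := Real.sqrt_pos.mpr hl0
    rw [div_mul_div_comm, one_mul, div_le_div_iff₀ (by positivity) s1]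
    linarith
  rw [e0]
  calc Real.exp (-(2 * B ^ 2)) / 2 * gg l V = (1 / 2 * (1 / Real.sqrt l)) *
        (Real.exp (-(2 * B ^ 2)) * Real.exp (-(V ^ 2 / l))) := by unfold gg; ring
    _ ≤ (1 / Real.sqrt lx) * Real.exp (-(V ^ 2 / lx)) := by gcongr
    _ = _ := by ring

/-- logarithms in the range of the windows -/
lemma logs_ev : ∀ᶠ T : ℝ in atTop, ∀ x ∈ Set.Icc (T / 2) (8 * T),
    Real.log x ≤ 4 * Real.log T ∧ Real.log T ≤ 4 * Real.log x ∧
      |Real.log (Real.log x) - Real.log (Real.log T)| ≤ 1 := by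
  filter_upwards [Real.tendsto_log_atTop.eventually_ge_atTop (4:ℝ), eventually_gt_atTop (0:ℝ)] with T hL hT x hx
  have hx0 : 0 < x := by linarith [hx.1]
  have l2 : Real.log 2 ≤ 1 := by linarith [Real.log_two_lt_d9]
  have l8 : Real.log 8 ≤ 3 := by
    rw [show (8:ℝ) = 2 * 2 * 2 by norm_num, Real.log_mul (by norm_num) (by norm_num),
      Real.log_mul (by norm_num) (by norm_num)]
    linarith
  have a1 : Real.log T - 1 ≤ Real.log x := by
    have := Real.log_le_log (by positivity : 0 < T / 2) hx.1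
    rw [Real.log_div hT.ne' (by norm_num)] at this
    linarith
  have a2 : Real.log x ≤ Real.log T + 3 := by
    have := Real.log_le_log hx0 hx.2
    rw [Real.log_mul (by norm_num) hT.ne'] at this
    linarith
  refine ⟨by linarith, by linarith, ?_⟩
  have hx3 : 0 < Real.log x := by linarith
  have hT3 : 0 < Real.log T := by linarith
  rw [← Real.log_div hx3.ne' hT3.ne']
  have b1 : Real.log x / Real.log T ≤ 2 := by rw [div_le_iff₀ hT3]; linarith
  have b2 : 1 / 2 ≤ Real.log x / Real.log T := by rw [le_div_iff₀ hT3]; linarith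
  rw [abs_le]
  constructor
  · have := Real.log_le_log (by norm_num : (0:ℝ) < 1 / 2) b2
    rw [Real.log_div (by norm_num) (by norm_num), Real.log_one] at this
    linarith
  · have := Real.log_le_log (by positivity) b1
    linarith

end

end Pool.Agent.TH806.LM
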