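import Pool.Agent.TH806.LM.Win3
import Pool.Agent.TH806.LM.Set

set_option autoImplicit false

/-!
LM project: the windows theorem.
-/

namespace Pool.Agent.TH806.LM

open Finset Filter Topology MeasureTheory Complex MonoidAlgebra
open Pool.Agent.W184.NZ
open Pool.Agent.TH806 Pool.Agent.TH806.LK
open Pool.Agent.H306R2.SM (om cl Yf)
open Pool.Agent.H262R4.TM (Rng Ck)

noncomputable section

lemma xx_loc {Rs J : ℕ} {I : ℕ → Finset ℕ} {K V W t : ℝ} (hE : t ∈ EE Rs J I K) (hL : t ∈ Lev V W) :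
    |xx I J t - V| ≤ K + W := by
  obtain ⟨_, h1, h2⟩ := hE
  obtain ⟨h3, h4⟩ := hL
  rw [← Real.exp_add] at h1 h2
  have a1 := Real.exp_le_exp.mp (h1.trans h4)
  have a2 := Real.exp_le_exp.mp (h3.trans h2)
  rw [abs_le]
  constructor <;> linarith

lemma lev_of {Rs J : ℕ} {I : ℕ → Finset ℕ} {K V W B' t : ℝ} (hE : t ∈ EE Rs J I K) (hx : |xx I J t - V| ≤ B')
    (hW : K + B' ≤ W) : t ∈ Lev V W := by
  obtain ⟨_, h1, h2⟩ := hE
  rw [← Real.exp_add] at h1 h2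
  obtain ⟨q1, q2⟩ := abs_le.mp hx
  exact ⟨le_trans (Real.exp_le_exp.mpr (by linarith)) h1, h2.trans (Real.exp_le_exp.mpr (by linarith))⟩

/-- the upper local law in a window -/
lemma loc_up (hPT : P_PT) {n Rs J R₀ m : ℕ} {I : ℕ → Finset ℕ}
    (hDL : ∀ (n Rs J : ℕ) (z : ℕ → ℂ) (u : ℝ), 1 ≤ n → 1 ≤ Rs → R₀ ≤ Rs →
      (∀ i < J, ‖z i‖ ≤ RR Rs i) → |(∑ i ∈ range J, (z i).re) - u| ≤ 1 → 1 / 2 ≤ ‖DK n Rs J hh u z‖)
    (hI : ∀ i, ∀ p ∈ I i, p.Prime) (hn : 1 ≤ n) (hRs : 1 ≤ Rs) (hR₀ : R₀ ≤ Rs) {κ : ℕ} {x : ℝ}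
    (hδ : 0 < (κ:ℝ) / x) {K W V l DV B C1 : ℝ} (hC1 : 0 ≤ C1) (hm : K + W ≤ m) (hl : 1 ≤ l) (hDV : 2 * DV ≤ l)
    (hV0 : |VV I J - l| ≤ DV) (hV : |V| ≤ B * l) (hB : 0 ≤ B) (hbig : m + (B + 1) * DV ≤ l) (hnB : B + 1 ≤ n)
    (U : ∀ a u : ℝ, |a| ≤ n → ∫ t in Set.Ioi (0:ℝ), om κ (κ / x) t * AD n Rs J I a u t ≤ C1 * WW (a ^ 2) (VV I J)) :
    ∫ t in Set.Ioi (0:ℝ) ∩ (EE Rs J I K ∩ Lev V W), om κ (κ / x) t ≤
      (2 * m + 1) * (32 * Real.exp (2 * n) * C1 * Real.exp (2 * B ^ 2 * DV + 4 * B * m + 2 * m ^ 2)) * gg l V := by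
  have hPT' := hPT
  obtain ⟨hP1, hP2⟩ := hPT'
  have hhc : Continuous hh := by unfold hh; fun_prop
  obtain ⟨cA, cD, cz, Bk, hBk⟩ := hP1 n Rs J I 0 0 hh hI hhc
  have cx := xx_cont (J := J) cz
  have iom : IntegrableOn (fun t => om κ (κ / x) t) (Set.Ioi 0) := om_int0 _ hδ
  set S : ℕ → Set ℝ := fun j => {t | gd Rs J I t ∧ |xx I J t - (V - m + j)| ≤ 1} with hS
  have mS : ∀ j, MeasurableSet (S j) := fun j =>
    (gd_meas cz).inter (measurableSet_le (cx.sub continuous_const).abs.measurable measurable_const)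
  have mE := (EE_meas (Rs := Rs) (J := J) cz K).inter (Lev_meas V W)
  obtain ⟨q1, q2⟩ := abs_le.mp hV0
  have hDV0 : 0 ≤ DV := (abs_nonneg _).trans hV0
  have hVV0 : 0 < VV I J := by linarith
  have e0 : ∫ t in Set.Ioi (0:ℝ) ∩ (EE Rs J I K ∩ Lev V W), om κ (κ / x) t =
      ∫ t in Set.Ioi (0:ℝ), (EE Rs J I K ∩ Lev V W).indicator (fun t => om κ (κ / x) t) t := by
    rw [setIntegral_indicator mE]
  have hpt : ∀ t ∈ Set.Ioi (0:ℝ), (EE Rs J I K ∩ Lev V W).indicator (fun t => om κ (κ / x) t) t ≤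
      ∑ j ∈ range (2 * m + 1), (S j).indicator (fun t => om κ (κ / x) t) t := by
    intro t ht
    have hom : 0 ≤ om κ (κ / x) t := om_nn κ hδ (le_of_lt ht)
    have hnn : ∀ j, 0 ≤ (S j).indicator (fun t => om κ (κ / x) t) t := by
      intro j
      by_cases h : t ∈ S j
      · rw [Set.indicator_of_mem h]; exact hom
      · rw [Set.indicator_of_notMem h]
    by_cases hE : t ∈ EE Rs J I K ∩ Lev V W
    · rw [Set.indicator_of_mem hE]
      have hx := (xx_loc hE.1 hE.2).trans hm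
      obtain ⟨r1, r2⟩ := abs_le.mp hx
      have hy0 : 0 ≤ xx I J t - V + m := by linarith
      have f1 := Nat.floor_le hy0
      have f2 := Nat.lt_floor_add_one (xx I J t - V + m)
      set j := ⌊xx I J t - V + m⌋₊ with hj
      have hjm : j < 2 * m + 1 := by
        have : (j:ℝ) ≤ 2 * m := by linarith
        have : j ≤ 2 * m := by exact_mod_cast this
        omega
      have hjS : t ∈ S j := by
        refine ⟨hE.1.1, ?_⟩
        rw [abs_le]; constructor <;> linarith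
      have := single_le_sum (f := fun j => (S j).indicator (fun t => om κ (κ / x) t) t)
        (fun j _ => hnn j) (mem_range.mpr hjm)
      refine le_trans ?_ this
      rw [Set.indicator_of_mem hjS]
    · rw [Set.indicator_of_notMem hE]
      exact sum_nonneg fun j _ => hnn j
  rw [e0]
  have hle := setIntegral_mono_on (iom.indicator mE)
    (integrable_finsetSum _ fun j _ => iom.indicator (mS j)) measurableSet_Ioi hpt
  refine hle.trans ?_
  rw [integral_finsetSum _ fun j _ => iom.indicator (mS j)]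
  have hj : ∀ j ∈ range (2 * m + 1), ∫ t in Set.Ioi (0:ℝ), (S j).indicator (fun t => om κ (κ / x) t) t ≤
      32 * Real.exp (2 * n) * C1 * Real.exp (2 * B ^ 2 * DV + 4 * B * m + 2 * m ^ 2) * gg l V := by
    intro j hj
    rw [setIntegral_indicator (mS j)]
    set u : ℝ := V - m + j with hu
    have hjm : (j:ℝ) ≤ 2 * m := by
      have := mem_range.mp hj
      have : j ≤ 2 * m := by omega
      exact_mod_cast this
    have hj0 : (0:ℝ) ≤ j := Nat.cast_nonneg _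
    have huV : |u - V| ≤ m := by
      rw [hu, abs_le]; constructor <;> linarith
    set a : ℝ := u / VV I J with ha
    have hau : a * u = u ^ 2 / VV I J := by rw [ha]; ring
    have haV : a ^ 2 * VV I J = u ^ 2 / VV I J := by rw [ha]; field_simp
    have han : |a| ≤ n := by
      rw [ha, abs_div, abs_of_pos hVV0, div_le_iff₀ hVV0]
      have h1 : |u| ≤ B * l + m := by
        have : u = V + (u - V) := by ring
        rw [this]
        exact (abs_add_le _ _).trans (add_le_add hV huV)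
      have h2 : B * l + m ≤ (B + 1) * VV I J := by
        have : (B + 1) * (l - DV) ≤ (B + 1) * VV I J := by
          apply mul_le_mul_of_nonneg_left _ (by linarith)
          linarith
        nlinarith
      calc |u| ≤ (B + 1) * VV I J := h1.trans h2
        _ ≤ n * VV I J := by gcongr
    have h1 := unit_up hPT hDL hI hn hRs hR₀ (J := J) hδ han (u := u)
    have h2 := U a u han
    have h3 : (1 + VV I J) ^ (-(1 / 2) : ℝ) * Real.exp (-(u ^ 2 / VV I J)) ≤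
        2 * Real.exp (2 * B ^ 2 * DV + 4 * B * m + 2 * m ^ 2) * gg l V :=
      cmp_up hl hDV hV0 hV hB huV (Nat.cast_nonneg m)
    refine h1.trans ?_
    have h4 : Real.exp (2 * |a| - 2 * a * u) * WW (a ^ 2) (VV I J) =
        Real.exp (2 * |a|) * ((1 + VV I J) ^ (-(1 / 2) : ℝ) * Real.exp (-(u ^ 2 / VV I J))) := by
      unfold WW
      have : Real.exp (2 * |a| - 2 * a * u) * Real.exp (a ^ 2 * VV I J) =
          Real.exp (2 * |a|) * Real.exp (-(u ^ 2 / VV I J)) := by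
        rw [← Real.exp_add, ← Real.exp_add]
        congr 1
        rw [haV, mul_assoc, hau]; ring
      calc Real.exp (2 * |a| - 2 * a * u) * ((1 + VV I J) ^ (-(1 / 2) : ℝ) * Real.exp (a ^ 2 * VV I J)) =
          (1 + VV I J) ^ (-(1 / 2) : ℝ) * (Real.exp (2 * |a| - 2 * a * u) * Real.exp (a ^ 2 * VV I J)) := by ring
        _ = _ := by rw [this]; ring
    calc 16 * Real.exp (2 * |a| - 2 * a * u) * ∫ t in Set.Ioi (0:ℝ), om κ (κ / x) t * AD n Rs J I a u t ≤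
        16 * Real.exp (2 * |a| - 2 * a * u) * (C1 * WW (a ^ 2) (VV I J)) := by gcongr
      _ = 16 * C1 * (Real.exp (2 * |a| - 2 * a * u) * WW (a ^ 2) (VV I J)) := by ring
      _ = 16 * C1 * (Real.exp (2 * |a|) * ((1 + VV I J) ^ (-(1 / 2) : ℝ) * Real.exp (-(u ^ 2 / VV I J)))) := by
          rw [h4]
      _ ≤ 16 * C1 * (Real.exp (2 * n) *
          (2 * Real.exp (2 * B ^ 2 * DV + 4 * B * m + 2 * m ^ 2) * gg l V)) := by gcongr
      _ = _ := by ring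
  refine (sum_le_sum hj).trans ?_
  rw [sum_const, card_range, nsmul_eq_mul]
  push_cast
  apply le_of_eq
  ring

lemma ev_x {p : ℝ → Prop} (h : ∀ᶠ x : ℝ in atTop, p x) : ∀ᶠ T : ℝ in atTop, ∀ x ∈ Set.Icc (T / 2) (8 * T), p x := by
  obtain ⟨X, hX⟩ := eventually_atTop.mp h
  filter_upwards [eventually_ge_atTop (2 * X)] with T hT x hx
  exact hX x (by linarith [hx.1])

lemma nA1 {A3 ε R : ℝ} (hε : 0 < ε) (h : 8 * A3 / ε ≤ R) :
    2 * A3 * Real.exp (-R) ≤ ε / 4 := by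
  rw [Real.exp_neg]
  have b1 : R ≤ Real.exp R := by linarith [Real.add_one_le_exp R]
  rw [mul_inv_le_iff₀ (Real.exp_pos _)]
  rw [div_le_iff₀ hε] at h
  nlinarith

lemma nA2 {D ε K : ℝ} (hε : 0 < ε) (h : 8 * D / ε ≤ K) :
    4 * Real.exp (-(2 * K)) * D ≤ ε / 4 := by
  have b1 : 2 * K ≤ Real.exp (2 * K) := by linarith [Real.add_one_le_exp (2 * K)]
  rw [div_le_iff₀ hε] at h
  have b3 : 4 * Real.exp (-(2 * K)) * D = 4 * D * (Real.exp (2 * K))⁻¹ := by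
    rw [Real.exp_neg]; ring
  rw [b3, mul_inv_le_iff₀ (Real.exp_pos _)]
  nlinarith

lemma nA3 {C D ε K : ℝ} (hε : 0 < ε) (hK : 0 < K - 1) (h : 4 * C * D / ε ≤ K - 1) :
    C / (K - 1) * D ≤ ε / 4 := by
  rw [div_le_iff₀ hε] at h
  rw [div_mul_eq_mul_div, div_le_iff₀ hK]
  linarith

lemma nA4 {x T ε : ℝ} (hε : 0 < ε) (hx0 : 0 < x) (hT : 8 / ε ≤ T) (hx : T / 2 ≤ x) : 1 / x ≤ ε / 4 := by
  rw [div_le_iff₀ hx0]
  rw [div_le_iff₀ hε] at hT
  nlinarith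

lemma nl {DV m B l : ℝ} (hDV : 0 ≤ DV) (hm : 0 ≤ m) (hB : 0 ≤ B) (h : 2 * DV + m + (B + 1) * DV + B + 2 ≤ l) :
    B + 2 ≤ l ∧ 2 * DV ≤ l ∧ m + (B + 1) * DV ≤ l := by
  have : 0 ≤ (B + 1) * DV := by positivity
  refine ⟨by linarith, by linarith, by linarith⟩

lemma nk {V B l lx : ℝ} (hB : 0 ≤ B) (hV : |V| ≤ B * l) (h1 : l ≤ lx + 1) (h2 : B + 1 ≤ lx) :
    |V / lx| ≤ B + 1 := by
  have hlxp : 0 < lx := by linarith
  rw [abs_div, abs_of_pos hlxp, div_le_iff₀ hlxp]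
  refine hV.trans ?_
  have : B * l ≤ B * (lx + 1) := mul_le_mul_of_nonneg_left h1 hB
  nlinarith

lemma kpos {x : ℝ} {κ : ℕ} (h : Rng x κ) (hx : 0 < Real.log x) : (0:ℝ) < κ :=
  lt_of_lt_of_le (pow_pos hx 2) h.1

lemma ncc {η n R : ℝ} (h0 : 0 < η) (hη : η ≤ 1) (hn : 1 ≤ n) (hR : 1 ≤ R) :
    0 < η / (4 * (n * (R + 1))) ∧ η / (4 * (n * (R + 1))) ≤ 1 ∧ η / (4 * (n * (R + 1))) ≤ η := by
  have h1 : 1 ≤ 4 * (n * (R + 1)) := by nlinarith
  have h2 := div_le_self h0.le h1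
  exact ⟨by positivity, h2.trans hη, h2⟩

lemma nD {A4 CV cc L V lx : ℝ} (hA : 0 ≤ A4) (hcc : 0 < cc) (hL : 0 < L) (hlx : lx ≤ 4 * L)
    (hV : Real.log (cc * L) - CV ≤ V) :
    A4 * lx * Real.exp ((2 * (-1:ℝ) + (-1) ^ 2) * V) ≤ A4 * (4 * Real.exp CV / cc) := by
  have e1 : (2 * (-1:ℝ) + (-1) ^ 2) * V = -V := by ring
  rw [e1]
  have e2 : Real.exp (-V) ≤ Real.exp CV / (cc * L) := by
    rw [le_div_iff₀ (by positivity)]
    calc Real.exp (-V) * (cc * L) = Real.exp (-V) * Real.exp (Real.log (cc * L)) := by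
          rw [Real.exp_log (by positivity)]
      _ = Real.exp (Real.log (cc * L) - V) := by rw [← Real.exp_add]; congr 1; ring
      _ ≤ Real.exp CV := Real.exp_le_exp.mpr (by linarith)
  calc A4 * lx * Real.exp (-V) ≤ A4 * (4 * L) * (Real.exp CV / (cc * L)) := by gcongr
    _ = A4 * (4 * Real.exp CV / cc) := by field_simp

lemma nM {k B c₀ V L : ℝ} (hL : 0 < L) (hc₀ : 0 ≤ c₀) (hk : |k| ≤ B) (hV : V ≤ Real.log L + c₀) :
    Real.exp (k ^ 2 * V) ≤ Real.exp (B ^ 2 * c₀) * L ^ (k ^ 2) := by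
  rw [Real.rpow_def_of_pos hL, ← Real.exp_add]
  apply Real.exp_le_exp.mpr
  have hk2 : k ^ 2 ≤ B ^ 2 := by
    rw [← sq_abs k]; exact pow_le_pow_left₀ (abs_nonneg _) hk 2
  have b1 : k ^ 2 * V ≤ k ^ 2 * (Real.log L + c₀) := mul_le_mul_of_nonneg_left hV (sq_nonneg _)
  have b2 : k ^ 2 * c₀ ≤ B ^ 2 * c₀ := mul_le_mul_of_nonneg_right hk2 hc₀
  linarith

/-- the windows theorem -/
def P_W2 : Prop := ∀ B ε δ₀ : ℝ, 0 ≤ B → 0 < ε → 0 < δ₀ → ∃ c C W δ : ℝ, 0 < c ∧ 0 < C ∧ 0 < W ∧ 0 < δ ∧ δ ≤ δ₀ ∧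
  ∀ᶠ T : ℝ in atTop,
  ∃ E : Set ℝ, MeasurableSet E ∧ (∀ t ∈ E, 0 < Xz t ∧ |Real.log (Xz t) - Sp (T ^ δ) t| ≤ W) ∧
    ∀ x ∈ Set.Icc (T / 2) (8 * T), ∀ κ : ℕ, Rng x κ →
    ∫ t in Set.Ioi (0:ℝ) ∩ Eᶜ, om κ (κ / x) t ≤ ε ∧
    (∀ V : ℝ, |V| ≤ B * Real.log (Real.log T) →
      c * gg (Real.log (Real.log T)) V ≤ ∫ t in Set.Ioi (0:ℝ) ∩ (E ∩ Lev V W), om κ (κ / x) t ∧
      ∫ t in Set.Ioi (0:ℝ) ∩ (E ∩ Lev V W), om κ (κ / x) t ≤ C * gg (Real.log (Real.log T)) V) ∧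
    ∀ k : ℝ, |k| ≤ B →
      IntegrableOn (fun t => om κ (κ / x) t * E.indicator (fun t => Xz t ^ (2 * k)) t) (Set.Ioi 0) ∧
      ∫ t in Set.Ioi (0:ℝ), om κ (κ / x) t * E.indicator (fun t => Xz t ^ (2 * k)) t ≤
        C * Real.log T ^ (k ^ 2)

set_option maxHeartbeats 4000000 in
theorem t_W2 (hSet : P_SET2) (hPT : P_PT) (h1 : P_U1) (h2 : P_U2) (h3 : P_U3) (h4 : P_U4) (hL : P_LB)
    (hJ : P_JEN) (hMP : P_MP) (v1 : P_V1) (v3 : P_V3) (v4 : P_V4) (hDL : P_DL) : P_W2 := by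
  intro B ε δ₀ hB hε hδ₀
  obtain ⟨c₀, hc₀, hSet⟩ := hSet
  obtain ⟨n, P0, e₀, η₀, hn1, hBn, he₀, he1, hη₀, hη₀1, hWL⟩ :=
    t_WL hPT h1 h2 h3 h4 hL (B + 1) (by linarith) c₀ hc₀
  have hn1R : (1:ℝ) ≤ n := by exact_mod_cast hn1
  obtain ⟨P1, C1, η1, hC1, hη1, H1⟩ := h1 n c₀ hn1 hc₀
  obtain ⟨PA, A1, ηA, hA1, hηA, HA⟩ := v1 n c₀ hn1 hc₀
  obtain ⟨P3, A3, η3, hA3, hη3, H3⟩ := v3 n c₀ hn1 hc₀
  obtain ⟨P4, A4, η4, hA4, hη4, H4⟩ := v4 n c₀ hn1 hc₀
  obtain ⟨ηM, hηM, HM⟩ := hMP n hn1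
  obtain ⟨CJ, hCJ, HJ⟩ := hJ
  obtain ⟨R₀, hDL⟩ := hDL
  obtain ⟨P6, hSet⟩ := hSet e₀ he₀
  set P : ℕ := P0 + P1 + PA + P3 + P4 + P6 with hP
  obtain ⟨CV, hCV, hSet⟩ := hSet P (by omega)
  obtain ⟨η, hη0, g0, g1, gA, g3, g4, gM, gδ⟩ : ∃ η : ℝ, 0 < η ∧ η ≤ η₀ ∧ η ≤ η1 ∧ η ≤ ηA ∧ η ≤ η3 ∧ η ≤ η4 ∧
      η ≤ ηM ∧ η ≤ δ₀ := by
    refine ⟨min η₀ (min η1 (min ηA (min η3 (min η4 (min ηM δ₀))))), by positivity, min_le_left _ _,
      ?_, ?_, ?_, ?_, ?_, ?_⟩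
    · exact (min_le_right _ _).trans (min_le_left _ _)
    · exact (min_le_right _ _).trans ((min_le_right _ _).trans (min_le_left _ _))
    · exact (min_le_right _ _).trans ((min_le_right _ _).trans ((min_le_right _ _).trans (min_le_left _ _)))
    · exact (min_le_right _ _).trans ((min_le_right _ _).trans ((min_le_right _ _).trans
        ((min_le_right _ _).trans (min_le_left _ _))))
    · exact (min_le_right _ _).trans ((min_le_right _ _).trans ((min_le_right _ _).trans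
        ((min_le_right _ _).trans ((min_le_right _ _).trans (min_le_left _ _)))))
    · exact (min_le_right _ _).trans ((min_le_right _ _).trans ((min_le_right _ _).trans
        ((min_le_right _ _).trans ((min_le_right _ _).trans (min_le_right _ _)))))
  have hη1' : η ≤ 1 := g0.trans hη₀1
  obtain ⟨R₁, hWL⟩ := hWL η hη0 g0 CV hCV
  obtain ⟨Rs, hRs1, hR₁, hR₀, hRsA⟩ : ∃ Rs : ℕ, 1 ≤ Rs ∧ R₁ ≤ Rs ∧ R₀ ≤ Rs ∧ 8 * A3 / ε ≤ Rs := by
    refine ⟨max 1 (max R₁ (max R₀ ⌈8 * A3 / ε⌉₊)), le_max_left _ _, ?_, ?_, ?_⟩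
    · exact (le_max_left _ _).trans (le_max_right _ _)
    · exact (le_max_left _ _).trans ((le_max_right _ _).trans (le_max_right _ _))
    · refine (Nat.le_ceil _).trans ?_
      exact_mod_cast (le_max_right _ _).trans ((le_max_right _ _).trans (le_max_right _ _))
  obtain ⟨c_out, B', K₀, hcout, hB', hK₀, hWL⟩ := hWL Rs hR₁
  have hRs1R : (1:ℝ) ≤ Rs := by exact_mod_cast hRs1
  set cc : ℝ := η / (4 * (n * ((Rs:ℝ) + 1))) with hcc
  have hnR : (0:ℝ) < n * ((Rs:ℝ) + 1) := by positivity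
  obtain ⟨hcc0, hcc1, hccη⟩ : 0 < cc ∧ cc ≤ 1 ∧ cc ≤ η := ncc hη0 hη1' hn1R hRs1R
  set Λ : ℝ := 4 * Real.exp CV / cc with hΛ
  have hΛ0 : 0 < Λ := by positivity
  set K : ℝ := K₀ + 2 + 8 * (A4 * Λ) / ε + 4 * CJ * (1 + A4 * Λ) / ε with hK
  have hKa : 0 < 8 * (A4 * Λ) / ε := by positivity
  have hKb : 0 < 4 * CJ * (1 + A4 * Λ) / ε := by positivity
  have hK0 : 0 < K := by linarith
  have hP0 : (0:ℝ) ≤ P := Nat.cast_nonneg P
  set W : ℝ := K + B' + (P + 144) with hW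
  have hW0 : 0 < W := by linarith
  have hccδ : cc ≤ δ₀ := hccη.trans gδ
  set m : ℕ := ⌈K + W⌉₊ with hm
  have hmK : K + W ≤ m := Nat.le_ceil _
  set DV : ℝ := c₀ + CV + |Real.log cc| with hDV
  have hDV0 : 0 ≤ DV := by positivity
  set Cb : ℝ := (2 * m + 1) * (32 * Real.exp (2 * n) * C1 *
    Real.exp (2 * B ^ 2 * DV + 4 * B * m + 2 * m ^ 2)) with hCb
  have hCb0 : 0 < Cb := by positivity
  set Cd : ℝ := 4 * Real.exp (2 * B * K) * (A1 * Real.exp (B ^ 2 * c₀)) with hCd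
  have hCd0 : 0 < Cd := by positivity
  refine ⟨c_out * (Real.exp (-(2 * B ^ 2)) / 2), Cb + Cd, W, cc, by positivity, by positivity, hW0, hcc0, hccδ, ?_⟩
  have hbig : ∀ᶠ T : ℝ in atTop, 144 ≤ Real.exp (cc * Real.log T) := by
    have h5 := Real.tendsto_log_atTop.eventually_ge_atTop (Real.log 144 / cc)
    filter_upwards [h5] with T hT
    rw [div_le_iff₀ hcc0] at hT
    rw [← Real.log_le_iff_le_exp (by norm_num)]
    linarith
  filter_upwards [ev_x (H1 Rs hRs1), ev_x (HA Rs hRs1), ev_x (H3 Rs hRs1), ev_x (H4 Rs hRs1), ev_x (HM Rs hRs1),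
    ev_x HJ, ev_x hWL, hbig, logs_ev, eventually_gt_atTop (0:ℝ), eventually_ge_atTop (8 / ε),
    Real.tendsto_log_atTop.eventually_ge_atTop 4,
    (Real.tendsto_log_atTop.comp Real.tendsto_log_atTop).eventually_ge_atTop (2 * DV + m + (B + 1) * DV + B + 2)] with
    T h1T hAT h3T h4T hMT hJT hWT hy hlogs hT0 hTε hL4 hlT
  simp only [Function.comp] at hlT
  set L := Real.log T with hLd
  set l := Real.log L with hld
  have hL0 : 0 < L := by linarith only [hL4]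
  obtain ⟨hlB, hlD, hlm⟩ := nl hDV0 (Nat.cast_nonneg m) hB hlT
  have hl1 : 1 ≤ l := by linarith only [hlB, hB]
  obtain ⟨J, I, hcfg, hV, hxS⟩ := hSet (Real.exp (cc * L)) hy
  set y : ℝ := Real.exp (cc * L) with hyd
  have hlogy : Real.log y = cc * L := Real.log_exp _
  have hlen0 : n * ((Rs:ℝ) + 1) * Real.log y = η / 4 * L := by
    rw [hlogy, hcc]; field_simp
  have hV0 : 0 ≤ VV I J := sum_nonneg fun i _ => vI_nonneg _
  have hVup : VV I J ≤ l + c₀ := by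
    have h6 := hcfg.vv
    rw [hlogy] at h6
    have h7 : Real.log (cc * L) ≤ l := Real.log_le_log (by positivity) (mul_le_of_le_one_left hL0.le hcc1)
    linarith only [h6, h7]
  have hVlow : l - DV ≤ VV I J := by
    have h8 := hV
    rw [hlogy, Real.log_mul hcc0.ne' hL0.ne'] at h8
    have := neg_abs_le (Real.log cc)
    linarith only [this, h8, hDV, hc₀]
  have hVl : |VV I J - l| ≤ DV := by
    have := abs_nonneg (Real.log cc)
    rw [abs_le]; constructor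
    · linarith only [hVlow]
    · linarith only [this, hVup, hDV, hCV]
  have hI : ∀ i, ∀ p ∈ I i, p.Prime := fun i p hp => (hcfg.rg.pr i p hp).1
  have hhc : Continuous hh := by unfold hh; fun_prop
  obtain ⟨_, _, cz, _⟩ := hPT.1 n Rs J I 0 0 hh hI hhc
  have mE : MeasurableSet (EE Rs J I K) := EE_meas cz K
  have hyT : T ^ cc = y := by
    rw [Real.rpow_def_of_pos hT0, hyd]; congr 1; ring
  refine ⟨EE Rs J I K, mE, ?_, fun x hx κ hκ => ?_⟩
  · rintro t ⟨_, t1, t2⟩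
    rw [← Real.exp_add] at t1 t2
    have hX0 : 0 < Xz t := lt_of_lt_of_le (Real.exp_pos _) t1
    refine ⟨hX0, ?_⟩
    rw [← Real.le_log_iff_exp_le hX0] at t1
    rw [← Real.log_le_iff_le_exp hX0] at t2
    rw [hyT]
    obtain ⟨s1, s2⟩ := abs_le.mp (hxS t)
    rw [abs_le]
    constructor
    · linarith only [s1, s2, t1, t2, hW, hB']
    · linarith only [s1, s2, t1, t2, hW, hB']
  obtain ⟨x1, x2, x3⟩ := hlogs x hx
  have hx0 : 0 < x := by linarith only [hx.1, hT0]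
  have hlx0 : 0 < Real.log x := by linarith only [x2, hL0]
  have hκ0 : (0:ℝ) < κ := kpos hκ hlx0
  have hδ : 0 < (κ:ℝ) / x := by positivity
  have hc1 : Cfg c₀ 1 P1 y J I := hcfg.mono he1 (by omega)
  have hcA : Cfg c₀ 1 PA y J I := hcfg.mono he1 (by omega)
  have hc3 : Cfg c₀ 1 P3 y J I := hcfg.mono he1 (by omega)
  have hc4 : Cfg c₀ 1 P4 y J I := hcfg.mono he1 (by omega)
  have hc0 : Cfg c₀ e₀ P0 y J I := hcfg.mono le_rfl (by omega)
  have hlenx : n * ((Rs:ℝ) + 1) * Real.log y ≤ η * Real.log x := by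
    rw [hlen0]
    have := mul_le_mul_of_nonneg_left x2 (show 0 ≤ η / 4 by positivity)
    linarith only [this]
  have hlen : ∀ {η' : ℝ}, η ≤ η' → n * ((Rs:ℝ) + 1) * Real.log y ≤ η' * Real.log x := fun h =>
    hlenx.trans (mul_le_mul_of_nonneg_right h hlx0.le)
  have hlow' : η / 16 * Real.log x ≤ n * ((Rs:ℝ) + 1) * Real.log y := by
    rw [hlen0]
    have := mul_le_mul_of_nonneg_left x1 (show 0 ≤ η / 16 by positivity)
    linarith only [this]
  obtain ⟨M1, M2, M3, M4⟩ := hMT x hx c₀ e₀ P0 y J I hc0 (hlen gM)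
  -- exceptional set
  have hD : ∫ t in Set.Ioi (0:ℝ), wz κ x t * ‖AZ n Rs J (-1) (zz I t)‖ ^ 2 ≤ A4 * Λ := by
    have s4 := h4T x hx κ hκ y J I hc4 (hlen g4) (-1) (by rw [abs_neg, abs_one]; exact hn1R)
    exact s4.trans (nD hA4.le hcc0 hL0 x1 (by rw [← hlogy]; exact hV))
  have hF : ∫ t in Set.Ioi (0:ℝ) ∩ {t | Xz t * ‖AZ n Rs J (-1) (zz I t)‖ ≤ Real.exp (-(K - 1))}, om κ (κ / x) t ≤
      CJ / (K - 1) * (1 + A4 * Λ) + 1 / x := by
    have s5 := hJT x hx κ hκ (MP n Rs J I (-1)) M1 M2 M3 (K - 1) (by linarith only [hK, hKa, hKb, hK₀])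
    simp only [M4] at s5
    refine s5.trans ?_
    have : 0 ≤ CJ / (K - 1) := div_nonneg hCJ.le (by linarith only [hK, hKa, hKb, hK₀])
    have h9 := mul_le_mul_of_nonneg_left (add_le_add_right hD 1) this
    exact add_le_add_left h9 _
  have hexc := exc hPT hI hn1 hRs1 (κ := κ) (T := x) (K := K) (J := J) hδ hA3.le
    (fun i hi => h3T x hx κ hκ y J I hc3 (hlen g3) i hi) hD hF
  have p1 : ∫ t in Set.Ioi (0:ℝ) ∩ (EE Rs J I K)ᶜ, om κ (κ / x) t ≤ ε := by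
    refine hexc.trans ?_
    have a1 : 2 * A3 * Real.exp (-(Rs:ℝ)) ≤ ε / 4 := nA1 hε hRsA
    have a2 : 4 * Real.exp (-(2 * K)) * (A4 * Λ) ≤ ε / 4 := nA2 hε (by linarith only [hK, hKa, hKb, hK₀])
    have a3 : CJ / (K - 1) * (1 + A4 * Λ) ≤ ε / 4 :=
      nA3 hε (by linarith only [hK, hKa, hKb, hK₀]) (by linarith only [hK, hKa, hKb, hK₀])
    have a4 : 1 / x ≤ ε / 4 := nA4 hε hx0 hTε hx.1
    linarith only [a1, a2, a3, a4]
  refine ⟨p1, fun V hVB => ⟨?_, ?_⟩, fun k hk => ?_⟩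
  · -- lower local law
    have hlx : |Real.log (Real.log x) - l| ≤ 1 := x3
    obtain ⟨q1, q2⟩ := abs_le.mp hlx
    have hlxB : B + 1 ≤ Real.log (Real.log x) := by linarith only [q1, hlB]
    have hlx1 : 1 ≤ Real.log (Real.log x) := by linarith only [hlxB, hB]
    have hlxp : 0 < Real.log (Real.log x) := by linarith only [hlx1]
    have hkx : |V / Real.log (Real.log x)| ≤ B + 1 := nk hB hVB (by linarith only [q1]) hlxB
    have hw := hWT x hx κ hκ y J I hc0 hlow' hlenx hV (V / Real.log (Real.log x)) hkx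
    have hVe : V / Real.log (Real.log x) * Real.log (Real.log x) = V := by field_simp
    rw [hVe] at hw
    have hcl := cmp_low (V := V) hl1 hlx1 hlx hVB
    have hsub : EE Rs J I K₀ ∩ {t | |xx I J t - V| ≤ B'} ⊆ EE Rs J I K ∩ Lev V W := by
      rintro t ⟨t1, t2⟩
      exact ⟨EE_mono (by linarith only [hK, hKa, hKb]) t1, lev_of t1 t2 (by linarith only [hK, hKa, hKb, hW, hP0])⟩
    have hmono : ∫ t in Set.Ioi (0:ℝ) ∩ (EE Rs J I K₀ ∩ {t | |xx I J t - V| ≤ B'}), om κ (κ / x) t ≤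
        ∫ t in Set.Ioi (0:ℝ) ∩ (EE Rs J I K ∩ Lev V W), om κ (κ / x) t := by
      refine setIntegral_mono_set ((om_int0 κ hδ).mono_set Set.inter_subset_left) ?_ ?_
      · refine ae_restrict_of_ae_restrict_of_subset Set.inter_subset_left ?_
        exact (ae_restrict_iff' measurableSet_Ioi).mpr (Eventually.of_forall fun t ht => om_nn κ hδ (le_of_lt ht))
      · exact (Set.inter_subset_inter_right _ hsub).eventuallyLE
    refine le_trans ?_ (hw.trans hmono)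
    rw [mul_assoc]
    exact mul_le_mul_of_nonneg_left hcl hcout.le
  · -- upper local law
    have hloc := loc_up hPT (n := n) (m := m) hDL hI hn1 hRs1 hR₀ (κ := κ) (x := x) hδ (K := K) (W := W) (V := V)
      (l := l) (DV := DV) (B := B) (C1 := C1) hC1.le hmK hl1 hlD hVl hVB hB hlm (by linarith only [hBn])
      (fun a u ha => h1T x hx κ hκ y J I hc1 (hlen g1) a u ha)
    refine hloc.trans ?_
    have := gg_nonneg l V
    rw [← hCb]
    exact mul_le_mul_of_nonneg_right (by linarith only [hCd0]) this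
  · -- moments
    have hkn : |k| ≤ n := by linarith only [hk, hBn]
    obtain ⟨i1, i2⟩ := mom_up hPT hI hn1 hRs1 (J := J) hK0.le hδ hkn
    refine ⟨i1, i2.trans ?_⟩
    have s1 := hAT x hx κ hκ y J I hcA (hlen gA) k hkn
    have e1 : Real.exp (k ^ 2 * VV I J) ≤ Real.exp (B ^ 2 * c₀) * L ^ (k ^ 2) := nM hL0 hc₀ hk hVup
    have e2 : Real.exp (2 * |k| * K) ≤ Real.exp (2 * B * K) := by gcongr
    have hLk : 0 ≤ L ^ (k ^ 2) := Real.rpow_nonneg hL0.le _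
    calc 4 * Real.exp (2 * |k| * K) * ∫ t in Set.Ioi (0:ℝ), om κ (κ / x) t * ‖AZ n Rs J k (zz I t)‖ ^ 2 ≤
        4 * Real.exp (2 * |k| * K) * (A1 * Real.exp (k ^ 2 * VV I J)) := by gcongr
      _ ≤ 4 * Real.exp (2 * B * K) * (A1 * (Real.exp (B ^ 2 * c₀) * L ^ (k ^ 2))) := by gcongr
      _ = Cd * L ^ (k ^ 2) := by rw [hCd]; ring
      _ ≤ (Cb + Cd) * L ^ (k ^ 2) := mul_le_mul_of_nonneg_right (by linarith only [hCb0]) hLk

end

end Pool.Agent.TH806.LM
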